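import Pool.Agent.H58.Mult.Comb

/-! # Parameters of a cyclic difference set (MP_3e22f2_co) -/

set_option autoImplicit false

namespace Pool.Agent.H10.MU

open Finset Pool.Agent.H58.Mult

theorem card_mul {v : ℕ} [NeZero v] {D : Finset (ZMod v)} {lam : ℕ} (hD : IsDS D (lam : ℤ)) :
    D.card * (D.card - 1) = lam * (v - 1) := by
  classical
  have h1 : ∑ α : ZMod v, cnt D 1 α = (D.card : ℤ) ^ 2 := by
    unfold cnt
    rw [Finset.sum_comm]
    have : ∀ x ∈ D, ∑ α : ZMod v, (∑ y ∈ D, if 1 * x - y = α then (1 : ℤ) else 0) = D.card := by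
      intro x _
      rw [Finset.sum_comm]
      simp
    rw [Finset.sum_congr rfl this]
    simp [sq]
  rw [← Finset.add_sum_erase Finset.univ (cnt D 1) (Finset.mem_univ 0), cnt_one_zero] at h1
  have h2 : ∑ α ∈ Finset.univ.erase (0 : ZMod v), cnt D 1 α = (v - 1 : ℕ) * (lam : ℤ) := by
    rw [Finset.sum_congr rfl fun α hα => hD α (Finset.mem_erase.1 hα).1, Finset.sum_const,
      Finset.card_erase_of_mem (Finset.mem_univ _), Finset.card_univ, ZMod.card, nsmul_eq_mul]
  rw [h2] at h1
  rcases Nat.eq_zero_or_pos D.card with h | h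
  · rw [h] at h1 ⊢
    have h3 : ((v - 1 : ℕ) : ℤ) * (lam : ℤ) = 0 := by
      simpa using h1
    have h4 : (v - 1) * lam = 0 := by exact_mod_cast h3
    rw [mul_comm lam, h4]
  · have h3 : ((D.card * (D.card - 1) : ℕ) : ℤ) = ((lam * (v - 1) : ℕ) : ℤ) := by
      push_cast
      rw [Nat.cast_sub h]
      push_cast
      linear_combination -h1
    exact_mod_cast h3

/-- The shape of the parameters. -/
theorem shape {v k lam : ℕ} (h1 : 1 < k) (h2 : k + 1 < v) (h : k * (k - 1) = lam * (v - 1)) :
    lam < k ∧ ∃ a b x z y y' : ℕ, a * b = v - 1 ∧ x * z = k - lam ∧ 0 < z ∧ z < a ∧ 0 < x ∧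
      x < b ∧ a ^ 2 * x = y * v + z ∧ b ^ 2 * z = y' * v + x := by
  have hlam : lam < k := by
    by_contra hcon
    push Not at hcon
    have : k * (k - 1) < k * (v - 1) := Nat.mul_lt_mul_of_pos_left (by omega) (by omega)
    have h3 : k * (v - 1) ≤ lam * (v - 1) := Nat.mul_le_mul_right _ hcon
    omega
  refine ⟨hlam, ?_⟩
  set a := Nat.gcd k (v - 1) with ha
  have hapos : 0 < a := Nat.gcd_pos_of_pos_left _ (by omega)
  obtain ⟨x, hx⟩ : a ∣ k := Nat.gcd_dvd_left _ _
  obtain ⟨b, hb⟩ : a ∣ v - 1 := Nat.gcd_dvd_right _ _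
  have hxb : Nat.Coprime x b := by
    have h3 := Nat.coprime_div_gcd_div_gcd (m := k) (n := v - 1) hapos
    rw [← ha] at h3
    have e1 : k / a = x := by
      conv_lhs => rw [hx]
      exact Nat.mul_div_cancel_left x hapos
    have e2 : (v - 1) / a = b := by
      conv_lhs => rw [hb]
      exact Nat.mul_div_cancel_left b hapos
    rwa [e1, e2] at h3
  have h4 : x * (k - 1) = lam * b := by
    have h5 : a * (x * (k - 1)) = a * (lam * b) := by
      calc a * (x * (k - 1)) = (a * x) * (k - 1) := by ring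
        _ = k * (k - 1) := by rw [← hx]
        _ = lam * (v - 1) := h
        _ = lam * (a * b) := by rw [← hb]
        _ = a * (lam * b) := by ring
    exact Nat.eq_of_mul_eq_mul_left hapos h5
  obtain ⟨y, hy⟩ : b ∣ k - 1 := by
    have h5 : b ∣ x * (k - 1) := by
      rw [h4]
      exact dvd_mul_left _ _
    exact (Nat.Coprime.symm hxb).dvd_of_dvd_mul_left h5
  have hbpos : 0 < b := by
    rcases Nat.eq_zero_or_pos b with h0 | h0
    · rw [h0, mul_zero] at hb
      omega
    · exact h0
  have hxpos : 0 < x := by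
    rcases Nat.eq_zero_or_pos x with h0 | h0
    · rw [h0, mul_zero] at hx
      omega
    · exact h0
  have hypos : 0 < y := by
    rcases Nat.eq_zero_or_pos y with h0 | h0
    · rw [h0, mul_zero] at hy
      omega
    · exact h0
  have hlam2 : lam = x * y := by
    rw [hy] at h4
    have h5 : b * (x * y) = b * lam := by rw [mul_comm b lam, ← h4]; ring
    exact (Nat.eq_of_mul_eq_mul_left hbpos h5).symm
  have hya : y < a := by
    by_contra hcon
    push Not at hcon
    have : x * a ≤ x * y := Nat.mul_le_mul_left _ hcon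
    rw [← hlam2, mul_comm x a, ← hx] at this
    omega
  have hxb' : x < b := by
    by_contra hcon
    push Not at hcon
    have : a * b ≤ a * x := Nat.mul_le_mul_left _ hcon
    rw [← hx, ← hb] at this
    omega
  have hv : v = a * b + 1 := by omega
  have hk : k = b * y + 1 := by omega
  have hz : a - y + y = a := Nat.sub_add_cancel hya.le
  have hbx : b - x + x = b := Nat.sub_add_cancel hxb'.le
  have hax : a * x = b * y + 1 := by rw [← hx]; exact hk
  refine ⟨a, b, x, a - y, y, b - x, hb.symm, ?_, by omega, by omega, hxpos, hxb', ?_, ?_⟩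
  · have : x * (a - y) + lam = k := by
      rw [hlam2, ← mul_add, hz, hx, mul_comm]
    omega
  · calc a ^ 2 * x = a * (a * x) := by ring
      _ = a * (b * y + 1) := by rw [hax]
      _ = a * b * y + a := by ring
      _ = a * b * y + (a - y + y) := by rw [hz]
      _ = y * (a * b + 1) + (a - y) := by ring
      _ = y * v + (a - y) := by rw [← hv]
  · have e : b ^ 2 * (a - y) + b * (b * y) = b * (a * b) := by
      calc b ^ 2 * (a - y) + b * (b * y) = b ^ 2 * (a - y + y) := by ring
        _ = b * (a * b) := by rw [hz]; ring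
    have e2 : (b - x) * v + x + b * (b * y) = b * (a * b) := by
      rw [hv]
      calc (b - x) * (a * b + 1) + x + b * (b * y) =
          (b - x) * (a * b) + (b - x + x) + b * (b * y) := by ring
        _ = (b - x) * (a * b) + b + b * (b * y) := by rw [hbx]
        _ = (b - x) * (a * b) + b * (b * y + 1) := by ring
        _ = (b - x) * (a * b) + b * (a * x) := by rw [hax]
        _ = (b - x + x) * (a * b) := by ring
        _ = b * (a * b) := by rw [hbx]
    omega

/-- With a prime factor `r` of `v - 1 = r A`. -/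
theorem shape_r {v k lam r A : ℕ} (h1 : 1 < k) (h2 : k + 1 < v)
    (h : k * (k - 1) = lam * (v - 1)) (hr : r.Prime) (hrA : v - 1 = r * A) :
    lam < k ∧ ∃ a c x z : ℕ, a * c = A ∧ x * z = k - lam ∧ 0 < z ∧ z < a ∧ 0 < x ∧
      ((a : ZMod v) ^ 2 * x = z) := by
  obtain ⟨hl, a, b, x, z, y, y', hab, hxz, hz, hza, hx, hxb, e1, e2⟩ := shape h1 h2 h
  refine ⟨hl, ?_⟩
  have c1 : (a : ZMod v) ^ 2 * x = z := by
    have := congrArg (fun n : ℕ => (n : ZMod v)) e1
    push_cast at this
    rw [this]
    simp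
  have c2 : (b : ZMod v) ^ 2 * z = x := by
    have := congrArg (fun n : ℕ => (n : ZMod v)) e2
    push_cast at this
    rw [this]
    simp
  have h3 : r ∣ a * b := by rw [hab, hrA]; exact dvd_mul_right _ _
  rcases (Nat.Prime.dvd_mul hr).1 h3 with ⟨c, hc⟩ | ⟨c, hc⟩
  · refine ⟨b, c, z, x, ?_, by rw [mul_comm]; exact hxz, hx, hxb, hz, c2⟩
    have : r * (b * c) = r * A := by
      rw [← hrA, ← hab, hc]
      ring
    exact Nat.eq_of_mul_eq_mul_left hr.pos this
  · refine ⟨a, c, x, z, ?_, hxz, hz, hza, hx, c1⟩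
    have : r * (a * c) = r * A := by
      rw [← hrA, ← hab, hc]
      ring
    exact Nat.eq_of_mul_eq_mul_left hr.pos this

end Pool.Agent.H10.MU
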