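import Pool.Agent.H10.MU.Corr

/-! # Multipliers from a large common cyclic group, `v` prime (MP_3e22f2_co) -/

set_option autoImplicit false

namespace Pool.Agent.H10.MU

open Finset Pool.Agent.H58.Mult

/-- The sum over the units of a function invariant under multiplication by `u`. -/
theorem dvd_sum_units {G : Type*} [Group G] [Fintype G] (u : G) (f : G → ℤ)
    (hf : ∀ x, f (x * u) = f x) : ((orderOf u : ℕ) : ℤ) ∣ ∑ x, f x := by
  classical
  let H : Subgroup G := Subgroup.zpowers u
  have hinv : ∀ x : G, ∀ h ∈ H, f (x * h) = f x := by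
    intro x h hh
    have hpow : ∀ n : ℕ, ∀ y, f (y * u ^ n) = f y := by
      intro n
      induction n with
      | zero => intro y; rw [pow_zero, mul_one]
      | succ n ih => intro y; rw [pow_succ, ← mul_assoc, hf, ih]
    obtain ⟨n, rfl⟩ := (mem_powers_iff_mem_zpowers (x := u) (y := h)).2 hh
    exact hpow n x
  have e : ∑ x, f x = ∑ p : (G ⧸ H) × H, f (Quotient.out p.1) := by
    refine Fintype.sum_equiv Subgroup.groupEquivQuotientProdSubgroup _ _ fun x => ?_
    have h1 : (Quotient.out (Subgroup.groupEquivQuotientProdSubgroup (s := H) x).1)⁻¹ * x ∈ H := by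
      rw [← QuotientGroup.eq]
      have : (Subgroup.groupEquivQuotientProdSubgroup (s := H) x).1 = (x : G ⧸ H) := rfl
      rw [this]
      exact Quotient.out_eq' _
    have h2 := hinv (Quotient.out (Subgroup.groupEquivQuotientProdSubgroup (s := H) x).1) _ h1
    rw [mul_inv_cancel_left] at h2
    exact h2
  rw [e, Fintype.sum_prod_type]
  refine Finset.dvd_sum fun q _ => ?_
  simp only
  rw [Finset.sum_const, Finset.card_univ, nsmul_eq_mul, Fintype.card_zpowers]
  exact dvd_mul_right _ _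

variable {v : ℕ} [NeZero v]

/-- A function on `ZMod v`, `v` prime, invariant under an affine map of order `> 2 m` with sum `m`
and sum of squares `m ^ 2` is nonnegative. -/
theorem nonneg_of_inv (hv : v.Prime) {m : ℕ} {F : ZMod v → ℤ} (hs : ∑ g, F g = m)
    (hq : ∑ g, F g ^ 2 = (m : ℤ) ^ 2) (u : (ZMod v)ˣ) (hu : 2 * m < orderOf u) (hu1 : u ≠ 1)
    (g : ZMod v) (hF : ∀ y, F ((u⁻¹ : (ZMod v)ˣ) * (y + g)) = F y) : ∀ x, 0 ≤ F x := by
  classical
  have hfact : Fact v.Prime := ⟨hv⟩
  have hne : (u : ZMod v) - 1 ≠ 0 := fun h => hu1 (Units.ext (sub_eq_zero.1 h))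
  set x0 : ZMod v := g / ((u : ZMod v) - 1) with hx0
  have hx : (u : ZMod v) * x0 = x0 + g := by
    have h1 : ((u : ZMod v) - 1) * x0 = g := by
      rw [hx0]
      field_simp
    linear_combination h1
  let F' : ZMod v → ℤ := fun y => F (y + x0)
  have hF' : ∀ y, F' (u * y) = F' y := by
    intro y
    show F (u * y + x0) = F (y + x0)
    have h1 := hF (u * y + x0)
    have h2 : ((u⁻¹ : (ZMod v)ˣ) : ZMod v) * (u * y + x0 + g) = y + x0 := by
      rw [add_assoc, ← hx, ← mul_add, ← mul_assoc, Units.inv_mul, one_mul]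
    rw [h2] at h1
    exact h1.symm
  have hs' : ∑ y, F' y = m := by
    rw [← hs]
    exact Fintype.sum_equiv (Equiv.addRight x0) _ _ fun y => rfl
  have hq' : ∑ y, F' y ^ 2 = (m : ℤ) ^ 2 := by
    rw [← hq]
    exact Fintype.sum_equiv (Equiv.addRight x0) _ _ fun y => rfl
  have hunits : ∑ y, F' y = F' 0 + ∑ x : (ZMod v)ˣ, F' x := by
    rw [← Finset.add_sum_erase Finset.univ F' (Finset.mem_univ 0)]
    congr 1
    refine (Finset.sum_bij (fun (x : (ZMod v)ˣ) _ => (x : ZMod v)) ?_ ?_ ?_ ?_).symm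
    · intro x _
      exact Finset.mem_erase.2 ⟨x.ne_zero, Finset.mem_univ _⟩
    · intro x _ y _ h
      exact Units.ext h
    · intro y hy
      exact ⟨Units.mk0 y (Finset.mem_erase.1 hy).1, Finset.mem_univ _, rfl⟩
    · intro x _
      rfl
  have hdvd : ((orderOf u : ℕ) : ℤ) ∣ ∑ x : (ZMod v)ˣ, F' x := by
    refine dvd_sum_units u (fun x => F' x) fun x => ?_
    show F' ((x * u : (ZMod v)ˣ) : ZMod v) = F' x
    rw [Units.val_mul, mul_comm, hF']
  rw [hunits] at hs'
  have hle : |F' 0| ≤ (m : ℤ) := by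
    apply abs_le_of_sq_le_sq _ (by positivity)
    rw [← hq']
    exact Finset.single_le_sum (f := fun g => F' g ^ 2) (fun _ _ => sq_nonneg _)
      (Finset.mem_univ 0)
  have h0 : F' 0 = m := by
    have h1 : ∑ x : (ZMod v)ˣ, F' x = m - F' 0 := by omega
    rw [h1] at hdvd
    have h2 := abs_le.1 hle
    have h3 : |(m : ℤ) - F' 0| < ((orderOf u : ℕ) : ℤ) := by
      rw [abs_of_nonneg (by omega)]
      omega
    have h4 := Int.eq_zero_of_abs_lt_dvd hdvd h3
    omega
  intro x
  by_cases hxx : x = x0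
  · subst hxx
    have : F x0 = F' 0 := by
      show F x0 = F (0 + x0)
      rw [zero_add]
    rw [this, h0]
    positivity
  · have h1 : ∑ y ∈ Finset.univ.erase (0 : ZMod v), F' y ^ 2 = 0 := by
      have := Finset.add_sum_erase Finset.univ (fun y => F' y ^ 2) (Finset.mem_univ (0 : ZMod v))
      rw [hq', h0] at this
      omega
    have h2 := (Finset.sum_eq_zero_iff_of_nonneg (fun y _ => sq_nonneg _)).1 h1 (x - x0)
      (Finset.mem_erase.2 ⟨sub_ne_zero.2 hxx, Finset.mem_univ _⟩)
    have h3 : F' (x - x0) = 0 := pow_eq_zero_iff (two_ne_zero) |>.1 h2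
    have h4 : F' (x - x0) = F x := by
      show F (x - x0 + x0) = F x
      rw [sub_add_cancel]
    rw [← h4, h3]

variable {D : Finset (ZMod v)} {l : ℤ}

/-- **The multiplier criterion**: `v` prime, `n = m n1` with `m` and `n1` coprime.  If some `u` of
order more than `2 m` is a power of every prime dividing `m`, then every `t` that is a power of
every prime dividing `n1` is a multiplier. -/
theorem mult_of_order (hv : v.Prime) (hD : IsDS D l) {m n1 : ℕ} (hm : 0 < m) (hn1 : 0 < n1)
    (hcop : Nat.Coprime n1 m) (hn : (D.card : ℤ) - l = m * n1) (hmv : Nat.Coprime m v)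
    (hnv : Nat.Coprime n1 v) (t u : (ZMod v)ˣ) (hu : 2 * m < orderOf u)
    (hup : ∀ p : ℕ, p.Prime → p ∣ m → ∃ j : ℕ, (u : ZMod v) = (p : ZMod v) ^ j)
    (htp : ∀ p : ℕ, p.Prime → p ∣ n1 → ∃ j : ℕ, (t : ZMod v) = (p : ZMod v) ^ j) :
    ∃ s : ZMod v, D.image (fun x => (t : ZMod v) * x) = D.image (fun x => x + s) := by
  have hF := div_all hD ⟨m, by rw [hn]; ring⟩ hnv t htp
  have hH := div_all hD ⟨n1, by rw [hn]⟩ hmv u hup
  choose F hF using hF
  choose H hH using hH
  have hu1 : u ≠ 1 := by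
    rintro rfl
    rw [orderOf_one] at hu
    omega
  obtain ⟨g, hg⟩ := twist hD hm hn1 hcop hn t u hF hH
  have hs := sum_quot hD hn1 hn t hF
  have hq := sum_sq fun a => norm_quot hD hn1 hn t hF a
  have hpos := nonneg_of_inv hv hs hq u hu hu1 g hg
  refine mult_of_pos hD (by rw [hn]; positivity) t fun x => ?_
  rw [hF]
  exact mul_nonneg (by positivity) (hpos x)

end Pool.Agent.H10.MU
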