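import Pool.Agent.H58.Mult.Power

/-! # Correlations of the quotient functions (MP_3e22f2_co)

Write `E_t = D^(t) D^* - l G`.  If `n1` divides `E_t` (`E_t = n1 F`) and `m` divides `E_u`
(`E_u = m H`), `n = n1 m`, then `n1 ^ 2 F^(u) F^* = m ^ 2 H^(t) H^*`.  If `n1` and `m` are coprime
this gives `F^(u) F^* = m ^ 2 g`, hence `F^(u) = g F`. -/

set_option autoImplicit false

namespace Pool.Agent.H10.MU

open Finset Pool.Agent.H58.Mult
open scoped ComplexConjugate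

variable {v : ℕ} [NeZero v]

/-- The correlation `f^(u) f^*`. -/
def corr (f : ZMod v → ℤ) (u : (ZMod v)ˣ) (g : ZMod v) : ℤ :=
  ∑ y, f ((u⁻¹ : (ZMod v)ˣ) * (y + g)) * f y

theorem ft_corr (f : ZMod v → ℤ) (u : (ZMod v)ˣ) (a : ZMod v) :
    ft (χ v) (corr f u) a = ft (χ v) f (a * u) * ft (χ v) f (-a) := by
  unfold ft corr
  rw [Finset.sum_mul_sum]
  have h1 : ∀ g : ZMod v, ((∑ y, f ((u⁻¹ : (ZMod v)ˣ) * (y + g)) * f y : ℤ) : ℂ) * χ v (a * g) =
      ∑ y, (f ((u⁻¹ : (ZMod v)ˣ) * (y + g)) : ℂ) * χ v (a * (y + g)) *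
        ((f y : ℂ) * χ v (-a * y)) := by
    intro g
    push_cast
    rw [Finset.sum_mul]
    refine Finset.sum_congr rfl fun y _ => ?_
    have h2 : χ v (a * g) = χ v (a * (y + g)) * χ v (-a * y) := by
      rw [← AddChar.map_add_eq_mul]
      congr 1
      ring
    rw [h2]
    ring
  simp_rw [h1]
  rw [Finset.sum_comm]
  conv_rhs => rw [Finset.sum_comm]
  refine Finset.sum_congr rfl fun y _ => ?_
  rw [← Finset.sum_mul, ← Finset.sum_mul]
  congr 1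
  have h3 : ∑ g : ZMod v, (f ((u⁻¹ : (ZMod v)ˣ) * (y + g)) : ℂ) * χ v (a * (y + g)) =
      ∑ h : ZMod v, (f ((u⁻¹ : (ZMod v)ˣ) * h) : ℂ) * χ v (a * h) :=
    Fintype.sum_equiv (Equiv.addLeft y) _ _ fun g => rfl
  rw [h3]
  refine Fintype.sum_equiv (Units.mulLeft u⁻¹) _ _ fun h => ?_
  show (f ((u⁻¹ : (ZMod v)ˣ) * h) : ℂ) * χ v (a * h) =
    (f ((u⁻¹ : (ZMod v)ˣ) * h) : ℂ) * χ v (a * u * ((u⁻¹ : (ZMod v)ˣ) * h))
  congr 2
  rw [mul_assoc a, ← mul_assoc (u : ZMod v), Units.mul_inv, one_mul]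

theorem eq_of_ft {f g : ZMod v → ℤ} (h : ∀ a, ft (χ v) f a = ft (χ v) g a) (x : ZMod v) :
    f x = g x := by
  have h1 := ft_inv (ψ := χ v) χ_prim f x
  have h2 := ft_inv (ψ := χ v) χ_prim g x
  simp_rw [h] at h1
  rw [h1] at h2
  have hv : (v : ℂ) ≠ 0 := by exact_mod_cast NeZero.ne v
  have h3 := mul_left_cancel₀ hv h2
  exact_mod_cast h3

theorem ft_smul (f : ZMod v → ℤ) (c : ℤ) (a : ZMod v) :
    ft (χ v) (fun x => c * f x) a = c * ft (χ v) f a := by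
  unfold ft
  rw [Finset.mul_sum]
  refine Finset.sum_congr rfl fun g _ => ?_
  push_cast
  ring

variable {D : Finset (ZMod v)} {l : ℤ}

theorem corr_id (hD : IsDS D l) (t u : (ZMod v)ˣ) {n1 m : ℕ} {F H : ZMod v → ℤ}
    (hF : ∀ g, E D l t g = n1 * F g) (hH : ∀ g, E D l u g = m * H g) (g : ZMod v) :
    (n1 : ℤ) ^ 2 * corr F u g = (m : ℤ) ^ 2 * corr H t g := by
  have hFt : ∀ a, ft (χ v) (E D l t) a = n1 * ft (χ v) F a := by
    intro a
    have := ft_smul F n1 a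
    push_cast at this
    rw [← this]
    congr 1
    funext x
    exact hF x
  have hHt : ∀ a, ft (χ v) (E D l u) a = m * ft (χ v) H a := by
    intro a
    have := ft_smul H m a
    push_cast at this
    rw [← this]
    congr 1
    funext x
    exact hH x
  have key := eq_of_ft (f := fun g => (n1 : ℤ) ^ 2 * corr F u g)
    (g := fun g => (m : ℤ) ^ 2 * corr H t g) ?_ g
  · exact key
  intro a
  rw [ft_smul, ft_smul, ft_corr, ft_corr]
  push_cast
  have e1 : (n1 : ℂ) ^ 2 * (ft (χ v) F (a * u) * ft (χ v) F (-a)) =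
      ft (χ v) (E D l t) (a * u) * ft (χ v) (E D l t) (-a) := by
    rw [hFt, hFt]
    ring
  have e2 : (m : ℂ) ^ 2 * (ft (χ v) H (a * t) * ft (χ v) H (-a)) =
      ft (χ v) (E D l u) (a * t) * ft (χ v) (E D l u) (-a) := by
    rw [hHt, hHt]
    ring
  rw [e1, e2, ft_E χ_prim hD, ft_E χ_prim hD, ft_E χ_prim hD, ft_E χ_prim hD]
  by_cases ha : a = 0
  · subst ha
    simp
  · have hu : a * (u : ZMod v) ≠ 0 := fun h => ha (by
      have := congrArg (fun x => x * ((u⁻¹ : (ZMod v)ˣ) : ZMod v)) h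
      simpa [mul_assoc] using this)
    have ht : a * (t : ZMod v) ≠ 0 := fun h => ha (by
      have := congrArg (fun x => x * ((t⁻¹ : (ZMod v)ˣ) : ZMod v)) h
      simpa [mul_assoc] using this)
    rw [if_neg hu, if_neg (neg_ne_zero.2 ha), if_neg ht, if_neg (neg_ne_zero.2 ha)]
    have c1 : a * (u : ZMod v) * t = a * t * u := by ring
    have c2 : -(a * (u : ZMod v)) = -a * u := by ring
    have c3 : -(a * (t : ZMod v)) = -a * t := by ring
    rw [c1, c2, c3, neg_neg]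
    ring

theorem sum_quot (hD : IsDS D l) {m n1 : ℕ} (hn1 : 0 < n1)
    (hn : (D.card : ℤ) - l = m * n1) (t : ZMod v) {F : ZMod v → ℤ}
    (hF : ∀ g, E D l t g = n1 * F g) : ∑ g, F g = m := by
  have h1 := sum_E hD t
  simp_rw [hF] at h1
  rw [← Finset.mul_sum, hn] at h1
  have h2 : (n1 : ℤ) * ∑ g, F g = (n1 : ℤ) * m := by rw [h1]; ring
  exact mul_left_cancel₀ (by exact_mod_cast hn1.ne') h2

theorem sum_corr (f : ZMod v → ℤ) (u : (ZMod v)ˣ) : ∑ g, corr f u g = (∑ g, f g) ^ 2 := by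
  unfold corr
  rw [Finset.sum_comm, sq, Finset.sum_mul]
  have h : ∀ y : ZMod v, ∑ x : ZMod v, f ((u⁻¹ : (ZMod v)ˣ) * (y + x)) * f y =
      f y * ∑ g, f g := by
    intro y
    rw [← Finset.sum_mul, mul_comm]
    congr 1
    exact Fintype.sum_equiv ((Equiv.addLeft y).trans (Units.mulLeft u⁻¹)) _ _ fun g => rfl
  simp_rw [h]

/-- The key step: `F^(u)` is a translate of `F`. -/
theorem twist (hD : IsDS D l) {m n1 : ℕ} (hm : 0 < m) (hn1 : 0 < n1)
    (hcop : Nat.Coprime n1 m)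
    (hn : (D.card : ℤ) - l = m * n1) (t u : (ZMod v)ˣ) {F H : ZMod v → ℤ}
    (hF : ∀ g, E D l t g = n1 * F g) (hH : ∀ g, E D l u g = m * H g) :
    ∃ g : ZMod v, ∀ y, F ((u⁻¹ : (ZMod v)ˣ) * (y + g)) = F y := by
  have hft := fun a => norm_quot hD hn1 hn t hF a
  have hsq := sum_sq hft
  have hs := sum_quot hD hn1 hn t hF
  have hdvd : ∀ g, ∃ c : ℤ, corr F u g = (m : ℤ) ^ 2 * c := by
    intro g
    have h1 : (m : ℤ) ^ 2 ∣ (n1 : ℤ) ^ 2 * corr F u g := by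
      rw [corr_id hD t u hF hH]
      exact dvd_mul_right _ _
    have h2 : IsCoprime ((m : ℤ) ^ 2) ((n1 : ℤ) ^ 2) :=
      IsCoprime.pow (Nat.isCoprime_iff_coprime.2 hcop.symm)
    exact h2.dvd_of_dvd_mul_left h1
  choose c hc using hdvd
  have hm0 : (m : ℤ) ≠ 0 := by exact_mod_cast hm.ne'
  have hcs : ∑ g, c g = 1 := by
    have h1 := sum_corr F u
    simp_rw [hc] at h1
    rw [← Finset.mul_sum, hs] at h1
    have h2 : (m : ℤ) ^ 2 * ∑ g, c g = (m : ℤ) ^ 2 * 1 := by rw [h1]; ring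
    exact mul_left_cancel₀ (pow_ne_zero 2 hm0) h2
  have hcft : ∀ a, ft (χ v) (corr F u) a * conj (ft (χ v) (corr F u) a) =
      (((m : ℤ) ^ 2 : ℤ) : ℂ) ^ 2 := by
    intro a
    rw [ft_corr, map_mul]
    have h1 := hft (a * u)
    have h2 := hft (-a)
    push_cast at h1 h2 ⊢
    calc ft (χ v) F (a * u) * ft (χ v) F (-a) * (conj (ft (χ v) F (a * u)) *
        conj (ft (χ v) F (-a))) = (ft (χ v) F (a * u) * conj (ft (χ v) F (a * u))) *
        (ft (χ v) F (-a) * conj (ft (χ v) F (-a))) := by ring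
      _ = ((m : ℂ) ^ 2) ^ 2 := by rw [h1, h2]; ring
  have hcq : ∑ g, c g ^ 2 = 1 := by
    have h1 := sum_sq hcft
    simp_rw [hc] at h1
    have h2 : ∑ g, ((m : ℤ) ^ 2 * c g) ^ 2 = ((m : ℤ) ^ 2) ^ 2 * ∑ g, c g ^ 2 := by
      rw [Finset.mul_sum]
      exact Finset.sum_congr rfl fun g _ => by ring
    rw [h2] at h1
    have h3 : ((m : ℤ) ^ 2) ^ 2 * ∑ g, c g ^ 2 = ((m : ℤ) ^ 2) ^ 2 * 1 := by rw [h1]; ring
    exact mul_left_cancel₀ (pow_ne_zero 2 (pow_ne_zero 2 hm0)) h3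
  obtain ⟨g, hg⟩ : ∃ g, 1 ≤ c g := by
    by_contra hcon
    push Not at hcon
    have : ∑ g, c g ≤ 0 := Finset.sum_nonpos fun g _ => by have := hcon g; omega
    omega
  have hg1 : c g = 1 := by
    have h1 : c g ^ 2 ≤ ∑ g, c g ^ 2 :=
      Finset.single_le_sum (f := fun g => c g ^ 2) (fun _ _ => sq_nonneg _) (Finset.mem_univ g)
    rw [hcq] at h1
    nlinarith
  refine ⟨g, ?_⟩
  have hperm : ∑ y, F ((u⁻¹ : (ZMod v)ˣ) * (y + g)) ^ 2 = (m : ℤ) ^ 2 := by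
    rw [← hsq]
    exact Fintype.sum_equiv ((Equiv.addRight g).trans (Units.mulLeft u⁻¹)) _ _ fun y => rfl
  have hcr : ∑ y, F ((u⁻¹ : (ZMod v)ˣ) * (y + g)) * F y = (m : ℤ) ^ 2 := by
    have := hc g
    unfold corr at this
    rw [this, hg1, mul_one]
  have hz : ∑ y, (F ((u⁻¹ : (ZMod v)ˣ) * (y + g)) - F y) ^ 2 = 0 := by
    have h1 : ∀ y, (F ((u⁻¹ : (ZMod v)ˣ) * (y + g)) - F y) ^ 2 =
        F ((u⁻¹ : (ZMod v)ˣ) * (y + g)) ^ 2 - 2 * (F ((u⁻¹ : (ZMod v)ˣ) * (y + g)) * F y) +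
          F y ^ 2 := by
      intro y
      ring
    simp_rw [h1]
    rw [Finset.sum_add_distrib, Finset.sum_sub_distrib, ← Finset.mul_sum, hperm, hcr, hsq]
    ring
  intro y
  have h1 := (Finset.sum_eq_zero_iff_of_nonneg (fun y _ => sq_nonneg _)).1 hz y
    (Finset.mem_univ y)
  have h2 := pow_eq_zero_iff (two_ne_zero) |>.1 h1
  omega

end Pool.Agent.H10.MU
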