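import Mathlib

/-! # Counting the exceptional primes (MP_3e22f2_co) -/

set_option autoImplicit false

namespace Pool.Agent.H10.MU

open Finset Real

theorem card_primeFactors_le (N : ℕ) : (N.primeFactors.card : ℝ) ≤ 2 * Real.log N := by
  rcases Nat.eq_zero_or_pos N with rfl | hN
  · simp
  have h1 : 2 ^ N.primeFactors.card ≤ N := by
    calc 2 ^ N.primeFactors.card ≤ ∏ p ∈ N.primeFactors, p :=
          Finset.pow_card_le_prod _ _ _ fun p hp => (Nat.prime_of_mem_primeFactors hp).two_le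
      _ ≤ N := Nat.le_of_dvd hN (Nat.prod_primeFactors_dvd N)
  have h2 : (N.primeFactors.card : ℝ) * Real.log 2 ≤ Real.log N := by
    rw [← Real.log_pow]
    apply Real.log_le_log (by positivity)
    exact_mod_cast h1
  have h3 : (1 : ℝ) / 2 ≤ Real.log 2 := by
    have := Real.log_two_gt_d9
    linarith
  have h4 : (0 : ℝ) ≤ N.primeFactors.card := Nat.cast_nonneg _
  nlinarith

theorem card_primeFactors_le' {N B : ℕ} (h : N ≤ B) :
    (N.primeFactors.card : ℝ) ≤ 2 * Real.log B := by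
  rcases Nat.eq_zero_or_pos N with rfl | hN
  · simp only [Nat.primeFactors_zero, Finset.card_empty, Nat.cast_zero]
    have : 0 ≤ Real.log B := Real.log_natCast_nonneg B
    linarith
  · refine (card_primeFactors_le N).trans ?_
    have : Real.log N ≤ Real.log B := Real.log_le_log (by exact_mod_cast hN) (by exact_mod_cast h)
    linarith

/-- First exceptional set. -/
def S1 (P Y : ℕ) : Finset ℕ :=
  (Finset.Icc 2 P ×ˢ Finset.Icc 1 Y).biUnion fun q => (q.1 ^ q.2 - 1).primeFactors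

theorem mem_S1 {P Y v p A : ℕ} (hv : v.Prime) (hp : 2 ≤ p) (hpP : p ≤ P) (hA : 1 ≤ A)
    (hAY : A ≤ Y) (h : (p : ZMod v) ^ A = 1) : v ∈ S1 P Y := by
  unfold S1
  rw [Finset.mem_biUnion]
  refine ⟨(p, A), Finset.mem_product.2 ⟨Finset.mem_Icc.2 ⟨hp, hpP⟩, Finset.mem_Icc.2 ⟨hA, hAY⟩⟩, ?_⟩
  have h1 : 1 < p ^ A := Nat.one_lt_pow (by omega) (by omega)
  refine Nat.mem_primeFactors.2 ⟨hv, ?_, by simp only; omega⟩
  simp only
  have h2 : ((p ^ A - 1 : ℕ) : ZMod v) = 0 := by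
    rw [Nat.cast_sub h1.le]
    push_cast
    rw [h, sub_self]
  exact (ZMod.natCast_eq_zero_iff _ _).1 h2

theorem card_S1 (P Y : ℕ) (hP : 1 ≤ P) :
    ((S1 P Y).card : ℝ) ≤ P * Y * (2 * (Y * Real.log P)) := by
  unfold S1
  have h1 : ((((Finset.Icc 2 P ×ˢ Finset.Icc 1 Y).biUnion fun q =>
      (q.1 ^ q.2 - 1).primeFactors).card : ℕ) : ℝ) ≤
      ∑ q ∈ Finset.Icc 2 P ×ˢ Finset.Icc 1 Y, (((q.1 ^ q.2 - 1).primeFactors.card : ℕ) : ℝ) := by
    exact_mod_cast Finset.card_biUnion_le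
  refine h1.trans ?_
  have h2 : ∀ q ∈ Finset.Icc 2 P ×ˢ Finset.Icc 1 Y,
      (((q.1 ^ q.2 - 1).primeFactors.card : ℕ) : ℝ) ≤ 2 * (Y * Real.log P) := by
    intro q hq
    rw [Finset.mem_product, Finset.mem_Icc, Finset.mem_Icc] at hq
    have h3 : q.1 ^ q.2 - 1 ≤ P ^ Y := by
      calc q.1 ^ q.2 - 1 ≤ q.1 ^ q.2 := Nat.sub_le _ _
        _ ≤ P ^ q.2 := Nat.pow_le_pow_left hq.1.2 _
        _ ≤ P ^ Y := Nat.pow_le_pow_right hP hq.2.2
    have h4 := card_primeFactors_le' h3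
    push_cast at h4
    rwa [Real.log_pow] at h4
  refine (Finset.sum_le_card_nsmul _ _ _ h2).trans ?_
  rw [nsmul_eq_mul]
  have hL : 0 ≤ Real.log P := Real.log_natCast_nonneg P
  refine mul_le_mul_of_nonneg_right ?_ (by positivity)
  rw [Finset.card_product, Nat.card_Icc, Nat.card_Icc]
  have : (P + 1 - 2) * (Y + 1 - 1) ≤ P * Y := Nat.mul_le_mul (by omega) (by omega)
  exact_mod_cast this

/-- Pairs with bounded product. -/
def pairs (N : ℕ) : Finset (ℕ × ℕ) :=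
  (Finset.Icc 1 N ×ˢ Finset.Icc 1 N).filter fun q => q.1 * q.2 ≤ N

theorem mem_pairs {N a b : ℕ} (ha : 0 < a) (hb : 0 < b) (h : a * b ≤ N) : (a, b) ∈ pairs N := by
  unfold pairs
  rw [Finset.mem_filter, Finset.mem_product, Finset.mem_Icc, Finset.mem_Icc]
  have h1 : a ≤ a * b := Nat.le_mul_of_pos_right a hb
  have h2 : b ≤ a * b := Nat.le_mul_of_pos_left b ha
  exact ⟨⟨⟨ha, h1.trans h⟩, ⟨hb, h2.trans h⟩⟩, h⟩

theorem card_pairs (N : ℕ) : ((pairs N).card : ℝ) ≤ N * (1 + Real.log N) := by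
  have h1 : (pairs N).card ≤ ∑ a ∈ Finset.Icc 1 N, N / a := by
    unfold pairs
    rw [Finset.card_filter, Finset.sum_product]
    refine Finset.sum_le_sum fun a ha => ?_
    rw [← Finset.card_filter]
    have hapos : 0 < a := (Finset.mem_Icc.1 ha).1
    have h2 : (Finset.Icc 1 N).filter (fun b => a * b ≤ N) ⊆ Finset.Icc 1 (N / a) := by
      intro b hb
      rw [Finset.mem_filter, Finset.mem_Icc] at hb
      rw [Finset.mem_Icc]
      exact ⟨hb.1.1, (Nat.le_div_iff_mul_le hapos).2 (by rw [mul_comm]; exact hb.2)⟩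
    refine (Finset.card_le_card h2).trans ?_
    rw [Nat.card_Icc, Nat.add_sub_cancel]
  have h3 : ((∑ a ∈ Finset.Icc 1 N, N / a : ℕ) : ℝ) ≤ N * (1 + Real.log N) := by
    push_cast
    have h4 : ∀ a ∈ Finset.Icc 1 N, ((N / a : ℕ) : ℝ) ≤ (N : ℝ) * (a : ℝ)⁻¹ := by
      intro a _
      rw [← div_eq_mul_inv]
      exact Nat.cast_div_le
    refine (Finset.sum_le_sum h4).trans ?_
    rw [← Finset.mul_sum]
    refine mul_le_mul_of_nonneg_left ?_ (Nat.cast_nonneg _)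
    have h5 := harmonic_le_one_add_log N
    rw [harmonic_eq_sum_Icc] at h5
    push_cast at h5
    exact h5
  calc ((pairs N).card : ℝ) ≤ ((∑ a ∈ Finset.Icc 1 N, N / a : ℕ) : ℝ) := by exact_mod_cast h1
    _ ≤ _ := h3

/-- Second exceptional set. -/
def S2 (P Y : ℕ) : Finset ℕ :=
  (pairs Y ×ˢ pairs P).biUnion fun q =>
    ((q.1.1 ^ 2 * q.2.1) ^ (q.1.1 * q.1.2) - q.2.2 ^ (q.1.1 * q.1.2)).primeFactors

theorem mem_S2 {P Y v a c x z : ℕ} (hv : v.Prime) (hc : 0 < c) (hY : a * c ≤ Y) (hz : 0 < z)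
    (hza : z < a) (hx : 0 < x) (hxz : x * z ≤ P)
    (h : ((a : ZMod v) ^ 2 * x) ^ (a * c) = (z : ZMod v) ^ (a * c)) : v ∈ S2 P Y := by
  unfold S2
  rw [Finset.mem_biUnion]
  have ha : 0 < a := by omega
  refine ⟨((a, c), (x, z)), Finset.mem_product.2 ⟨mem_pairs ha hc hY, mem_pairs hx hz hxz⟩, ?_⟩
  have h0 : z < a ^ 2 * x := by
    calc z < a := hza
      _ = a * 1 := (mul_one a).symm
      _ ≤ a ^ 2 * x := by
        rw [sq, mul_assoc]
        exact Nat.mul_le_mul_left a (Nat.mul_pos ha hx)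
  have h1 : z ^ (a * c) < (a ^ 2 * x) ^ (a * c) :=
    Nat.pow_lt_pow_left h0 (Nat.mul_pos ha hc).ne'
  refine Nat.mem_primeFactors.2 ⟨hv, ?_, by simp only; omega⟩
  simp only
  have h2 : (((a ^ 2 * x) ^ (a * c) - z ^ (a * c) : ℕ) : ZMod v) = 0 := by
    rw [Nat.cast_sub h1.le]
    push_cast
    rw [h, sub_self]
  exact (ZMod.natCast_eq_zero_iff _ _).1 h2

theorem card_S2 (P Y : ℕ) (hP : 1 ≤ P) (hYP : Y ≤ P) (hY : 1 ≤ Y) :
    ((S2 P Y).card : ℝ) ≤ Y * (1 + Real.log Y) * (P * (1 + Real.log P)) *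
      (6 * (Y * Real.log P)) := by
  unfold S2
  have h1 : ((((pairs Y ×ˢ pairs P).biUnion fun q =>
      ((q.1.1 ^ 2 * q.2.1) ^ (q.1.1 * q.1.2) - q.2.2 ^ (q.1.1 * q.1.2)).primeFactors).card : ℕ)
        : ℝ) ≤
      ∑ q ∈ pairs Y ×ˢ pairs P,
        ((((q.1.1 ^ 2 * q.2.1) ^ (q.1.1 * q.1.2) - q.2.2 ^ (q.1.1 * q.1.2)).primeFactors.card
          : ℕ) : ℝ) := by
    exact_mod_cast Finset.card_biUnion_le
  refine h1.trans ?_
  have hL : 0 ≤ Real.log P := Real.log_natCast_nonneg P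
  have h2 : ∀ q ∈ pairs Y ×ˢ pairs P,
      ((((q.1.1 ^ 2 * q.2.1) ^ (q.1.1 * q.1.2) - q.2.2 ^ (q.1.1 * q.1.2)).primeFactors.card
          : ℕ) : ℝ) ≤ 6 * (Y * Real.log P) := by
    intro q hq
    unfold pairs at hq
    simp only [Finset.mem_product, Finset.mem_filter, Finset.mem_Icc] at hq
    obtain ⟨⟨⟨⟨ha1, ha2⟩, _⟩, hac⟩, ⟨⟨⟨hx1, hx2⟩, _⟩, _⟩⟩ := hq
    have h3 : (q.1.1 ^ 2 * q.2.1) ^ (q.1.1 * q.1.2) - q.2.2 ^ (q.1.1 * q.1.2) ≤ P ^ (3 * Y) := by
      calc (q.1.1 ^ 2 * q.2.1) ^ (q.1.1 * q.1.2) - q.2.2 ^ (q.1.1 * q.1.2) ≤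
          (q.1.1 ^ 2 * q.2.1) ^ (q.1.1 * q.1.2) := Nat.sub_le _ _
        _ ≤ (P ^ 2 * P) ^ (q.1.1 * q.1.2) := by
          refine Nat.pow_le_pow_left (Nat.mul_le_mul ?_ hx2) _
          exact Nat.pow_le_pow_left (ha2.trans hYP) 2
        _ ≤ (P ^ 2 * P) ^ Y := Nat.pow_le_pow_right (by positivity) hac
        _ = P ^ (3 * Y) := by rw [← pow_succ, ← pow_mul]
    have h4 := card_primeFactors_le' h3
    push_cast at h4
    rw [Real.log_pow] at h4
    push_cast at h4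
    linarith
  refine (Finset.sum_le_card_nsmul _ _ _ h2).trans ?_
  rw [nsmul_eq_mul]
  refine mul_le_mul_of_nonneg_right ?_ (by positivity)
  rw [Finset.card_product]
  push_cast
  have hLY : 0 ≤ Real.log Y := Real.log_natCast_nonneg Y
  exact mul_le_mul (card_pairs Y) (card_pairs P) (by positivity) (by positivity)

/-- The two exceptional sets together. -/
theorem card_S (P Y : ℕ) (hP : 1 ≤ P) (hYP : Y ≤ P) :
    ((S1 P Y ∪ S2 P Y).card : ℝ) ≤ 8 * P * Y ^ 2 * (1 + Real.log P) ^ 3 := by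
  have hL : 0 ≤ Real.log P := Real.log_natCast_nonneg P
  rcases Nat.eq_zero_or_pos Y with rfl | hY
  · have e1 : S1 P 0 = ∅ := by
      unfold S1
      simp
    have e2 : S2 P 0 = ∅ := by
      unfold S2 pairs
      simp
    rw [e1, e2]
    simp
  have hLY : Real.log Y ≤ Real.log P :=
    Real.log_le_log (by exact_mod_cast hY) (by exact_mod_cast hYP)
  have hLY0 : 0 ≤ Real.log Y := Real.log_natCast_nonneg Y
  have h1 := card_S1 P Y hP
  have h2 := card_S2 P Y hP hYP hY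
  have h3 : ((S1 P Y ∪ S2 P Y).card : ℝ) ≤ ((S1 P Y).card : ℝ) + ((S2 P Y).card : ℝ) := by
    exact_mod_cast Finset.card_union_le _ _
  have hP0 : (0 : ℝ) ≤ P := Nat.cast_nonneg _
  have hY0 : (0 : ℝ) ≤ Y := Nat.cast_nonneg _
  have h4 : (P : ℝ) * Y * (2 * (Y * Real.log P)) ≤ 2 * P * Y ^ 2 * (1 + Real.log P) ^ 3 := by
    have : Real.log P ≤ (1 + Real.log P) ^ 3 := by nlinarith [sq_nonneg (Real.log P), mul_nonneg hL hL, mul_nonneg (mul_nonneg hL hL) hL]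
    calc (P : ℝ) * Y * (2 * (Y * Real.log P)) = 2 * P * Y ^ 2 * Real.log P := by ring
      _ ≤ 2 * P * Y ^ 2 * (1 + Real.log P) ^ 3 := mul_le_mul_of_nonneg_left this (by positivity)
  have h5 : (Y : ℝ) * (1 + Real.log Y) * (P * (1 + Real.log P)) * (6 * (Y * Real.log P)) ≤
      6 * P * Y ^ 2 * (1 + Real.log P) ^ 3 := by
    calc (Y : ℝ) * (1 + Real.log Y) * (P * (1 + Real.log P)) * (6 * (Y * Real.log P)) =
        6 * P * Y ^ 2 * ((1 + Real.log Y) * (1 + Real.log P) * Real.log P) := by ring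
      _ ≤ 6 * P * Y ^ 2 * ((1 + Real.log P) * (1 + Real.log P) * (1 + Real.log P)) := by
        refine mul_le_mul_of_nonneg_left ?_ (by positivity)
        refine mul_le_mul ?_ (by linarith) hL (by positivity)
        exact mul_le_mul_of_nonneg_right (by linarith) (by positivity)
      _ = _ := by ring
  linarith

end Pool.Agent.H10.MU
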