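import Pool.Agent.H10.MU.Arith
import Pool.Agent.H10.MU.Cl

/-! # The pointwise criterion (MP_3e22f2_co) -/

set_option autoImplicit false

namespace Pool.Agent.H10.MU

open Finset Pool.Agent.H58.Mult

section order

variable {v : ℕ} [Fact v.Prime]

theorem exists_order {r A : ℕ} (hr : r.Prime) (hrA : v - 1 = r * A) :
    ∃ u : (ZMod v)ˣ, orderOf u = r := by
  have : Fact r.Prime := ⟨hr⟩
  refine exists_prime_orderOf_dvd_card r ?_
  rw [ZMod.card_units_eq_totient, Nat.totient_prime Fact.out, hrA]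
  exact dvd_mul_right _ _

/-- Either `r` divides the order of `g`, or `g ^ A = 1`. -/
theorem dvd_order_or {r A : ℕ} (hr : r.Prime) (hrA : v - 1 = r * A) (g : (ZMod v)ˣ) :
    r ∣ orderOf g ∨ g ^ A = 1 := by
  by_cases h : r ∣ orderOf g
  · exact Or.inl h
  · right
    have h1 : Nat.Coprime (orderOf g) r := (Nat.Prime.coprime_iff_not_dvd hr |>.2 h).symm
    have h2 : orderOf g ∣ r * A := by
      rw [← hrA]
      exact orderOf_dvd_of_pow_eq_one (ZMod.units_pow_card_sub_one_eq_one v g)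
    exact orderOf_dvd_iff_pow_eq_one.1 (h1.dvd_of_dvd_mul_left h2)

theorem mem_pow {r : ℕ} (hr : r.Prime) {u g : (ZMod v)ˣ} (hu : orderOf u = r)
    (hg : r ∣ orderOf g) : ∃ j : ℕ, (u : ZMod v) = (g : ZMod v) ^ j := by
  obtain ⟨c, hc⟩ := hg
  have hc0 : c ≠ 0 := by
    rintro rfl
    rw [mul_zero] at hc
    exact absurd hc (orderOf_pos g).ne'
  have hprim : IsPrimitiveRoot ((g : ZMod v) ^ c) r := by
    have h1 : IsPrimitiveRoot (g ^ c) r := by
      rw [IsPrimitiveRoot.iff_orderOf, orderOf_pow_of_dvd hc0 (Dvd.intro_left r hc.symm), hc,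
        Nat.mul_div_cancel _ (Nat.pos_of_ne_zero hc0)]
    have := h1.map_of_injective (f := Units.coeHom (ZMod v)) Units.val_injective
    simpa using this
  have hu1 : (u : ZMod v) ^ r = 1 := by
    have : u ^ r = 1 := by rw [← hu, pow_orderOf_eq_one]
    have h2 := congrArg (fun z : (ZMod v)ˣ => (z : ZMod v)) this
    simpa using h2
  have : NeZero r := ⟨hr.ne_zero⟩
  obtain ⟨i, _, hi⟩ := hprim.eq_pow_of_pow_eq_one hu1
  exact ⟨c * i, by rw [← hi, pow_mul]⟩

end order

/-- **The criterion.** `v` prime, `r` prime, `v - 1 = r A`, `A ≤ P`, `2 P ^ 2 ≤ r`, `v ≤ P ^ 3`, no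
`2 ≤ p ≤ P` satisfies `p ^ A = 1` modulo `v`, and `(a ^ 2 x) ^ A ≠ z ^ A` modulo `v` for all `a`
dividing `A`, `0 < z < a`, `0 < x` with `x z < P`: every nontrivial difference set modulo `v` has a
nontrivial multiplier. -/
theorem criterion {v : ℕ} [NeZero v] (hv : v.Prime) {r A P : ℕ} (hr : r.Prime)
    (hrA : v - 1 = r * A)
    (hAP : A ≤ P) (hPr : 2 * P ^ 2 ≤ r) (hvP : v ≤ P ^ 3)
    (hS1 : ∀ p : ℕ, 2 ≤ p → p ≤ P → (p : ZMod v) ^ A ≠ 1)
    (hS2 : ∀ a c x z : ℕ, a * c = A → 0 < z → z < a → 0 < x → x * z < P →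
      ((a : ZMod v) ^ 2 * x) ^ A ≠ (z : ZMod v) ^ A)
    {D : Finset (ZMod v)} {lam : ℕ} (hD : IsDS D (lam : ℤ)) (h1 : 1 < D.card)
    (h2 : D.card + 1 < v) :
    ∃ t : (ZMod v)ˣ, t ≠ 1 ∧ ∃ s : ZMod v,
      D.image (fun x => (t : ZMod v) * x) = D.image (fun x => x + s) := by
  classical
  have hfact : Fact v.Prime := ⟨hv⟩
  obtain ⟨hl, a, c, x, z, hac, hxz, hz, hza, hx, hax⟩ := shape_r h1 h2 (card_mul hD) hr hrA
  set n : ℕ := D.card - lam with hn
  have hnpos : 0 < n := by omega
  have hnv : n < v := by omega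
  have hnZ : (D.card : ℤ) - lam = n := by omega
  have hPpos : 0 < P := by
    rcases Nat.eq_zero_or_pos P with h | h
    · rw [h] at hvP
      simp only [ne_eq, OfNat.ofNat_ne_zero, not_false_eq_true, zero_pow, nonpos_iff_eq_zero] at hvP
      omega
    · exact h
  have hApos : 0 < A := by
    rcases Nat.eq_zero_or_pos A with h | h
    · rw [h, mul_zero] at hrA
      omega
    · exact h
  obtain ⟨u, hu⟩ := exists_order (v := v) hr hrA
  have hcopv : ∀ d : ℕ, d ∣ n → Nat.Coprime d v := by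
    intro d hd
    have hd0 : 0 < d := Nat.pos_of_dvd_of_pos hd hnpos
    exact (Nat.Coprime.symm ((Nat.Prime.coprime_iff_not_dvd hv).2 fun h =>
      absurd (Nat.le_of_dvd hd0 h) (not_le.2 (lt_of_le_of_lt (Nat.le_of_dvd hnpos hd) hnv))))
  -- good primes
  have hgood : ∀ p : ℕ, p.Prime → p ∣ n → (p : ZMod v) ^ A ≠ 1 →
      ∃ j : ℕ, (u : ZMod v) = (p : ZMod v) ^ j := by
    intro p _ hpn hpA
    let g : (ZMod v)ˣ := ZMod.unitOfCoprime p (hcopv p hpn)
    have hg : (g : ZMod v) = p := ZMod.coe_unitOfCoprime p (hcopv p hpn)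
    rcases dvd_order_or hr hrA g with h | h
    · have := mem_pow hr hu h
      rwa [hg] at this
    · exfalso
      apply hpA
      have h3 := congrArg (fun z : (ZMod v)ˣ => (z : ZMod v)) h
      simpa [hg] using h3
  by_cases hB : ∃ p : ℕ, p.Prime ∧ p ∣ n ∧ (p : ZMod v) ^ A = 1
  swap
  · -- no bad prime
    push Not at hB
    refine ⟨u, ?_, ?_⟩
    · rintro rfl
      rw [orderOf_one] at hu
      exact hr.one_lt.ne hu
    · refine mult_of_order hv hD (m := 1) (n1 := n) one_pos hnpos (by simp) (by rw [hnZ]; simp)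
        (by simp) (hcopv n dvd_rfl) u u ?_ ?_ ?_
      · rw [hu]
        have : 1 ≤ P ^ 2 := Nat.one_le_pow _ _ hPpos
        have hr3 : r ≠ 2 ∨ 1 < P := by
          by_cases h : 1 < P
          · exact Or.inr h
          · left
            have hP1 : P = 1 := by omega
            rw [hP1] at hvP
            have := hv.two_le
            omega
        rcases hr3 with h | h
        · have := hr.two_le
          omega
        · nlinarith
      · intro p hp hp1
        exact absurd hp1 hp.not_dvd_one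
      · intro p hp hpn
        exact hgood p hp hpn (hB p hp hpn)
  obtain ⟨p, hp, hpn, hpA⟩ := hB
  have hbig : ∀ p : ℕ, p.Prime → (p : ZMod v) ^ A = 1 → P < p := by
    intro p hp hpA
    by_contra hcon
    push Not at hcon
    exact hS1 p hp.two_le hcon hpA
  have hzP : z < P := by
    have : a ≤ A := Nat.le_of_dvd hApos ⟨c, hac.symm⟩
    omega
  have hdx : ∀ p : ℕ, p.Prime → p ∣ n → (p : ZMod v) ^ A = 1 → p ∣ x := by
    intro p hp hpn hpA
    rw [← hxz] at hpn
    rcases (Nat.Prime.dvd_mul hp).1 hpn with h | h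
    · exact h
    · exfalso
      have := Nat.le_of_dvd hz h
      have := hbig p hp hpA
      omega
  by_cases hB2 : ∃ p' : ℕ, p'.Prime ∧ p' ∣ n ∧ (p' : ZMod v) ^ A = 1 ∧ p' ≠ p
  · -- two bad primes
    exfalso
    obtain ⟨p', hp', hpn', hpA', hne⟩ := hB2
    have hpp : p * p' ∣ x := Nat.Coprime.mul_dvd_of_dvd_of_dvd
      ((Nat.coprime_primes hp hp').2 hne.symm) (hdx p hp hpn hpA) (hdx p' hp' hpn' hpA')
    obtain ⟨x', hx'⟩ := hpp
    have hx'pos : 0 < x' := by
      rcases Nat.eq_zero_or_pos x' with h | h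
      · rw [h, mul_zero] at hx'
        omega
      · exact h
    refine hS2 a c x' z hac hz hza hx'pos ?_ ?_
    · have hb1 := hbig p hp hpA
      have hb2 := hbig p' hp' hpA'
      by_contra hcon
      push Not at hcon
      have h3 : P * P * P ≤ (p * p') * (x' * z) :=
        Nat.mul_le_mul (Nat.mul_le_mul hb1.le hb2.le) hcon
      have h4 : (p * p') * (x' * z) = n := by
        rw [← hxz, hx']
        ring
      have h5 : P ^ 3 = P * P * P := by ring
      omega
    · have h3 : ((a : ZMod v) ^ 2 * x) ^ A = (z : ZMod v) ^ A := by rw [hax]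
      rw [hx'] at h3
      push_cast at h3
      have h4 : ((a : ZMod v) ^ 2 * (p * p' * x')) ^ A =
          ((a : ZMod v) ^ 2 * x') ^ A * ((p : ZMod v) ^ A * (p' : ZMod v) ^ A) := by
        rw [← mul_pow, ← mul_pow]
        congr 1
        ring
      rw [h4, hpA, hpA', mul_one, mul_one] at h3
      exact h3
  · -- one bad prime
    push Not at hB2
    have hn0 : n ≠ 0 := hnpos.ne'
    have hq : p ^ n.factorization p * (n / p ^ n.factorization p) = n :=
      Nat.ordProj_mul_ordCompl_eq_self n p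
    set q : ℕ := p ^ n.factorization p with hqdef
    set m : ℕ := n / q with hm
    have hcopm : Nat.Coprime p m := Nat.coprime_ordCompl hp hn0
    have hqn : q ∣ n := ⟨m, hq.symm⟩
    have hmn : m ∣ n := ⟨q, by rw [mul_comm]; exact hq.symm⟩
    have hqpos : 0 < q := Nat.pos_of_dvd_of_pos hqn hnpos
    have hmpos : 0 < m := Nat.pos_of_dvd_of_pos hmn hnpos
    have hpq : p ≤ q := by
      have : 1 ≤ n.factorization p := (hp.dvd_iff_one_le_factorization hn0).1 hpn
      calc p = p ^ 1 := (pow_one p).symm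
        _ ≤ q := Nat.pow_le_pow_right hp.pos this
    have hpv : p < v := lt_of_le_of_lt (Nat.le_of_dvd hnpos hpn) hnv
    let t : (ZMod v)ˣ := ZMod.unitOfCoprime p (hcopv p hpn)
    have ht : (t : ZMod v) = p := ZMod.coe_unitOfCoprime p (hcopv p hpn)
    refine ⟨t, ?_, ?_⟩
    · intro h
      have h3 := congrArg (fun z : (ZMod v)ˣ => (z : ZMod v)) h
      simp only [ht, Units.val_one] at h3
      have h4 : ((p : ℕ) : ZMod v) = ((1 : ℕ) : ZMod v) := by rw [h3]; simp
      rw [ZMod.natCast_eq_natCast_iff', Nat.mod_eq_of_lt hpv, Nat.mod_eq_of_lt hv.one_lt] at h4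
      exact hp.one_lt.ne' h4
    · refine mult_of_order hv hD (m := m) (n1 := q) hmpos hqpos (Nat.Coprime.pow_left _ hcopm)
        (by rw [hnZ, ← hq]; push_cast; ring) (hcopv m hmn) (hcopv q hqn) t u ?_ ?_ ?_
      · rw [hu]
        have hb1 := hbig p hp hpA
        have h3 : m < P ^ 2 := by
          by_contra hcon
          push Not at hcon
          have h4 : P * P ^ 2 ≤ q * m := Nat.mul_le_mul (by omega) hcon
          have h5 : P ^ 3 = P * P ^ 2 := by ring
          omega
        omega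
      · intro p' hp' hpm'
        refine hgood p' hp' (hpm'.trans hmn) fun h => ?_
        have h3 := hB2 p' hp' (hpm'.trans hmn) h
        rw [h3] at hpm'
        exact (Nat.Prime.coprime_iff_not_dvd hp).1 hcopm hpm'
      · intro p' hp' hpq'
        refine ⟨1, ?_⟩
        have h3 : p' = p := (Nat.prime_dvd_prime_iff_eq hp' hp).1 (hp'.dvd_of_dvd_pow hpq')
        rw [h3, pow_one, ht]

end Pool.Agent.H10.MU
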