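import Pool.Agent.H10.MU.Twist

/-! # Orders `m p ^ b`, `m` fixed, with a double exponential bound (MP_3e22f2_co) -/

set_option autoImplicit false

namespace Pool.Agent.H10.MU

open Finset Pool.Agent.H58.Mult

variable {v : ℕ} [NeZero v] {D : Finset (ZMod v)} {l : ℤ}

theorem eventually2 (hD : IsDS D l) {m p b : ℕ} (hp : p.Prime) (h1 : 1 < D.card)
    (h2 : D.card + 1 < v) (hn : (D.card : ℤ) - l = m * (p ^ b : ℕ))
    (hcop : Nat.Coprime (m * p ^ b) v) (hlarge : (m ^ 2 + m) ^ (2 * 8 ^ (m ^ 2)) ≤ m * p ^ b) :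
    ∃ t : (ZMod v)ˣ, t ≠ 1 ∧ ∃ s : ZMod v,
      D.image (fun x => (t : ZMod v) * x) = D.image (fun x => x + s) := by
  have hv1 : 1 < v := by omega
  have hpos : 0 < m * p ^ b := by
    rcases Nat.eq_zero_or_pos (m * p ^ b) with h | h
    · rw [h, Nat.coprime_zero_left] at hcop
      omega
    · exact h
  have hm : 0 < m := Nat.pos_of_mul_pos_right hpos
  have hq : 0 < p ^ b := Nat.pos_of_mul_pos_left hpos
  have hn0 : 0 < (D.card : ℤ) - l := by
    rw [hn]
    positivity
  have hsq := card_sq hD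
  set k : ℤ := (D.card : ℤ) with hk
  set m' : ℤ := (v : ℤ) - 2 * k + l with hm'
  have hk1 : 1 < k := by rw [hk]; exact_mod_cast h1
  have hkv : k + 1 < v := by rw [hk]; exact_mod_cast h2
  have hlm : l * m' = (k - l) ^ 2 - (k - l) := by
    rw [hm']
    linear_combination -hsq
  have hv : (v : ℤ) = l + 2 * (k - l) + m' := by rw [hm']; ring
  have hl : 0 < l := by
    by_contra h
    push Not at h
    have : l * (v - 1) = k * (k - 1) := by linear_combination -hsq
    nlinarith
  have hm'0 : 0 < m' := by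
    by_contra h
    push Not at h
    have : m' * (v - 1) = (v - k) * (v - k - 1) := by rw [hm']; linear_combination -hsq
    nlinarith
  have hn2 : 2 ≤ k - l := by
    by_contra h
    have h3 : k - l = 1 := by omega
    rw [h3] at hlm
    nlinarith
  have hnv : k - l < v := by omega
  -- the exponent is positive
  have hb : b ≠ 0 := by
    rintro rfl
    rw [pow_zero, mul_one] at hlarge
    have h3 : m < (m ^ 2 + m) ^ (2 * 8 ^ (m ^ 2)) := by
      have hb1 : 1 ≤ 2 * 8 ^ (m ^ 2) := by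
        have : 0 < 8 ^ (m ^ 2) := by positivity
        omega
      calc m < m ^ 2 + m := by nlinarith
        _ = (m ^ 2 + m) ^ 1 := (pow_one _).symm
        _ ≤ (m ^ 2 + m) ^ (2 * 8 ^ (m ^ 2)) := Nat.pow_le_pow_right (by positivity) hb1
    omega
  have hpn : p ∣ m * p ^ b := (dvd_pow_self p hb).mul_left m
  have hpv : Nat.Coprime p v := Nat.Coprime.coprime_dvd_left hpn hcop
  by_cases hmin : l < ((p ^ b : ℕ) : ℤ) ∨ m' < ((p ^ b : ℕ) : ℤ)
  · refine ⟨ZMod.unitOfCoprime p hpv, ?_, ?_⟩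
    · intro h
      have h3 := congrArg (fun u : (ZMod v)ˣ => (u : ZMod v)) h
      simp only [ZMod.coe_unitOfCoprime, Units.val_one] at h3
      have h4 : ((p : ℕ) : ZMod v) = ((1 : ℕ) : ZMod v) := by rw [h3, Nat.cast_one]
      rw [ZMod.natCast_eq_natCast_iff] at h4
      have h5 : p ≤ m * p ^ b := Nat.le_of_dvd hpos hpn
      have h6 : p < v := by
        have : ((m * p ^ b : ℕ) : ℤ) < v := by
          push_cast
          push_cast at hn
          rw [← hn]
          exact hnv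
        omega
      have h7 := Nat.ModEq.eq_of_lt_of_lt h4 h6 hv1
      exact hp.one_lt.ne' h7
    · refine mult_of_min hD hn0 hp hpv (b := b) ?_ _ (ZMod.coe_unitOfCoprime p hpv) ?_
      · rw [hn]
        push_cast
        exact Dvd.intro_left _ rfl
      · push_cast at hmin
        exact hmin
  · push Not at hmin
    obtain ⟨hql, hqm⟩ := hmin
    have hex : ∃ c : ℤ, 1 ≤ c ∧ c < (m : ℤ) ^ 2 ∧ c * v = ((p ^ b : ℕ) : ℤ) * (c + m) ^ 2 - m := by
      have hq' : (0 : ℤ) < ((p ^ b : ℕ) : ℤ) := by exact_mod_cast hq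
      have hm0 : (0 : ℤ) < (m : ℤ) := by exact_mod_cast hm
      have hdvd : ((p ^ b : ℕ) : ℤ) ∣ l * m' := by
        rw [hlm, hn]
        exact ⟨m * (m * (p ^ b : ℕ) - 1), by ring⟩
      have hpp : Prime (p : ℤ) := Nat.prime_iff_prime_int.1 hp
      have hpdvdn : (p : ℤ) ∣ k - l := by
        rw [hn]
        exact_mod_cast hpn
      have hnotboth : ¬ ((p : ℤ) ∣ l ∧ (p : ℤ) ∣ m') := by
        rintro ⟨ha, hb'⟩
        have : (p : ℤ) ∣ v := by
          rw [hv]
          exact dvd_add (dvd_add ha (Dvd.dvd.mul_left hpdvdn 2)) hb'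
        have h3 : p ∣ v := by exact_mod_cast this
        have h4 := Nat.Coprime.eq_one_of_dvd hpv h3
        exact hp.one_lt.ne' h4
      by_cases hpl : (p : ℤ) ∣ l
      · have hc : IsCoprime ((p ^ b : ℕ) : ℤ) m' := by
          push_cast
          refine IsCoprime.pow_left ?_
          exact (Prime.coprime_iff_not_dvd hpp).2 fun h => hnotboth ⟨hpl, h⟩
        exact arith hn hm0 hq' hlm hv hl hqm (hc.dvd_of_dvd_mul_right hdvd)
      · have hc : IsCoprime ((p ^ b : ℕ) : ℤ) l := by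
          push_cast
          refine IsCoprime.pow_left ?_
          exact (Prime.coprime_iff_not_dvd hpp).2 hpl
        exact arith hn hm0 hq' (by rw [mul_comm]; exact hlm) (by rw [hv]; ring) hm'0 hql
          (hc.dvd_of_dvd_mul_left hdvd)
    obtain ⟨c, hc1, hc2, hc3⟩ := hex
    have hqv : Nat.Coprime (p ^ b) v := Nat.Coprime.pow_left b hpv
    obtain ⟨i, hi1, hi2, s, hs⟩ := small_pow hD hm hq hn hcop (ZMod.unitOfCoprime (p ^ b) hqv)
      (fun r hr hrp => ⟨b, by
        rw [ZMod.coe_unitOfCoprime, (Nat.prime_dvd_prime_iff_eq hr hp).1 (hr.dvd_of_dvd_pow hrp)]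
        push_cast
        rfl⟩)
    refine ⟨ZMod.unitOfCoprime (p ^ b) hqv ^ i, ?_, s, hs⟩
    intro hone
    have h3 := congrArg (fun u : (ZMod v)ˣ => (u : ZMod v)) hone
    simp only [Units.val_pow_eq_pow_val, ZMod.coe_unitOfCoprime, Units.val_one] at h3
    refine pow_ne_one (m := (m : ℤ)) (q := ((p ^ b : ℕ) : ℤ)) (w := v) (by exact_mod_cast hm) hc1 hc2
      hc3 hi1 hi2 ?_ ?_
    · have h4 : (((m ^ 2 + m) ^ (2 * 8 ^ (m ^ 2)) : ℕ) : ℤ) ≤ ((m * p ^ b : ℕ) : ℤ) := by
        exact_mod_cast hlarge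
      push_cast at h4 hn ⊢
      linarith
    · rw [Int.cast_natCast]
      exact h3

end Pool.Agent.H10.MU
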