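import Pool.Agent.H10.MU.Crit
import Pool.Agent.H10.MU.Count

/-! # Assembly (MP_3e22f2_co) -/

set_option autoImplicit false

namespace Pool.Agent.H10.MU

open Finset Pool.Agent.H58.Mult

/-- Some nontrivial cyclic difference set modulo `v` has no nontrivial multiplier. -/
def Bad (v : ℕ) : Prop :=
  ∃ D : Finset (ZMod v), 1 < D.card ∧ D.card + 1 < v ∧
    (∃ lam : ℕ, ∀ α : ZMod v, α ≠ 0 →
      ((D ×ˢ D).filter (fun p => p.1 - p.2 = α)).card = lam) ∧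
    ¬ ∃ t : (ZMod v)ˣ, t ≠ 1 ∧ ∃ s : ZMod v,
      D.image (fun x => (t : ZMod v) * x) = D.image (fun x => x + s)

theorem isDS_of {v : ℕ} [NeZero v] {D : Finset (ZMod v)} {lam : ℕ}
    (h : ∀ α : ZMod v, α ≠ 0 → ((D ×ˢ D).filter (fun p => p.1 - p.2 = α)).card = lam) :
    IsDS D (lam : ℤ) := by
  intro α hα
  have h := h α hα
  unfold cnt
  rw [← h, Finset.card_filter, Finset.sum_product]
  push_cast
  simp only [one_mul]

/-- The integer parameters attached to a real `X`. -/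
noncomputable def PP (X : ℕ) : ℕ := ⌈(X : ℝ) ^ ((1 : ℝ) / 3)⌉₊

noncomputable def YY (θ : ℝ) (X : ℕ) : ℕ := ⌊(X : ℝ) ^ (1 - θ)⌋₊

theorem PP_mono {v X : ℕ} (h : v ≤ X) : PP v ≤ PP X := by
  unfold PP
  refine Nat.ceil_mono (Real.rpow_le_rpow (by positivity) (by exact_mod_cast h) (by norm_num))

/-- A bad prime with a large prime factor of `v - 1` lies in the exceptional sets. -/
theorem mem_exc {θ : ℝ} (hθ : 2 / 3 < θ) {v X r : ℕ} (hv : v.Prime) (hvX : v ≤ X) (hr : r.Prime)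
    (hrv : r ∣ v - 1) (hrθ : (v : ℝ) ^ θ ≤ r) (hbig : (8 : ℝ) ≤ (v : ℝ) ^ (θ - 2 / 3))
    (hbad : Bad v) : v ∈ S1 (PP X) (YY θ X) ∪ S2 (PP X) (YY θ X) := by
  by_contra hcon
  rw [Finset.mem_union, not_or] at hcon
  obtain ⟨hc1, hc2⟩ := hcon
  obtain ⟨D, h1, h2, ⟨lam, hlam⟩, hno⟩ := hbad
  have hne : NeZero v := ⟨hv.ne_zero⟩
  have hD := isDS_of hlam
  obtain ⟨A, hrA⟩ := hrv
  have hv1 : (1 : ℝ) < v := by exact_mod_cast hv.one_lt
  have hv0 : (0 : ℝ) < v := by linarith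
  have hA0 : 0 < A := by
    rcases Nat.eq_zero_or_pos A with h | h
    · rw [h, mul_zero] at hrA
      have := hv.two_le
      omega
    · exact h
  have hrv' : r < v := by
    have h3 : r ≤ r * A := Nat.le_mul_of_pos_right r hA0
    have := hv.two_le
    omega
  have hθ1 : θ < 1 := by
    by_contra h
    push Not at h
    have h3 : (v : ℝ) ^ (1 : ℝ) ≤ (v : ℝ) ^ θ := Real.rpow_le_rpow_of_exponent_le hv1.le h
    rw [Real.rpow_one] at h3
    have h4 : (r : ℝ) < v := by exact_mod_cast hrv'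
    linarith
  have hAreal : (A : ℝ) ≤ (v : ℝ) ^ (1 - θ) := by
    have h3 : (v : ℝ) ^ θ * A ≤ v := by
      calc (v : ℝ) ^ θ * A ≤ r * A := mul_le_mul_of_nonneg_right hrθ (Nat.cast_nonneg _)
        _ = ((v - 1 : ℕ) : ℝ) := by rw [hrA]; push_cast; ring
        _ ≤ v := by exact_mod_cast Nat.sub_le _ _
    have h4 : (v : ℝ) ^ θ * (v : ℝ) ^ (1 - θ) = v := by
      rw [← Real.rpow_add hv0]
      simp
    have h5 : 0 < (v : ℝ) ^ θ := Real.rpow_pos_of_pos hv0 _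
    exact le_of_mul_le_mul_left (h3.trans h4.ge) h5
  have hAY : A ≤ YY θ X := by
    unfold YY
    refine Nat.le_floor (hAreal.trans ?_)
    exact Real.rpow_le_rpow hv0.le (by exact_mod_cast hvX) (by linarith)
  have hAP : A ≤ PP v := by
    unfold PP
    have h3 : (A : ℝ) ≤ (v : ℝ) ^ ((1 : ℝ) / 3) :=
      hAreal.trans (Real.rpow_le_rpow_of_exponent_le hv1.le (by linarith))
    exact_mod_cast h3.trans (Nat.le_ceil _)
  have hPv := PP_mono hvX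
  refine hno (criterion hv hr hrA hAP ?_ ?_ ?_ ?_ hD h1 h2)
  · -- `2 P ^ 2 ≤ r`
    have h3 : (PP v : ℝ) ≤ 2 * (v : ℝ) ^ ((1 : ℝ) / 3) := by
      unfold PP
      have h4 : (⌈(v : ℝ) ^ ((1 : ℝ) / 3)⌉₊ : ℝ) < (v : ℝ) ^ ((1 : ℝ) / 3) + 1 :=
        Nat.ceil_lt_add_one (Real.rpow_nonneg hv0.le _)
      have h5 : (1 : ℝ) ≤ (v : ℝ) ^ ((1 : ℝ) / 3) := Real.one_le_rpow hv1.le (by norm_num)
      linarith
    have h6 : ((2 * PP v ^ 2 : ℕ) : ℝ) ≤ r := by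
      push_cast
      calc 2 * (PP v : ℝ) ^ 2 ≤ 2 * (2 * (v : ℝ) ^ ((1 : ℝ) / 3)) ^ 2 := by
            have : (PP v : ℝ) ^ 2 ≤ (2 * (v : ℝ) ^ ((1 : ℝ) / 3)) ^ 2 :=
              pow_le_pow_left₀ (Nat.cast_nonneg _) h3 2
            linarith
        _ = 8 * (v : ℝ) ^ ((2 : ℝ) / 3) := by
            have : ((v : ℝ) ^ ((1 : ℝ) / 3)) ^ 2 = (v : ℝ) ^ ((2 : ℝ) / 3) := by
              rw [← Real.rpow_natCast, ← Real.rpow_mul hv0.le]
              norm_num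
            rw [mul_pow, this]
            ring
        _ ≤ (v : ℝ) ^ (θ - 2 / 3) * (v : ℝ) ^ ((2 : ℝ) / 3) :=
            mul_le_mul_of_nonneg_right hbig (Real.rpow_nonneg hv0.le _)
        _ = (v : ℝ) ^ θ := by
            rw [← Real.rpow_add hv0]
            congr 1
            ring
        _ ≤ r := hrθ
    exact_mod_cast h6
  · -- `v ≤ P ^ 3`
    have h3 : (v : ℝ) ≤ (PP v : ℝ) ^ 3 := by
      calc (v : ℝ) = ((v : ℝ) ^ ((1 : ℝ) / 3)) ^ 3 := by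
            rw [← Real.rpow_natCast, ← Real.rpow_mul hv0.le]
            norm_num
        _ ≤ (PP v : ℝ) ^ 3 := by
            refine pow_le_pow_left₀ (Real.rpow_nonneg hv0.le _) ?_ 3
            unfold PP
            exact Nat.le_ceil _
    exact_mod_cast h3
  · intro p hp hpP h
    exact hc1 (mem_S1 hv hp (hpP.trans hPv) hA0 hAY h)
  · intro a c x z hac hz hza hx hxz h
    have hc : 0 < c := by
      rcases Nat.eq_zero_or_pos c with h0 | h0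
      · rw [h0, mul_zero] at hac
        omega
      · exact h0
    refine hc2 (mem_S2 hv hc (by rw [hac]; exact hAY) hz hza hx (by omega) (by rw [hac]; exact h))

/-- The set of bad primes `v ≤ X` such that `v - 1` has a prime factor at least `v ^ θ`. -/
def BadSet (θ : ℝ) (X : ℕ) : Set ℕ :=
  {v | v ≤ X ∧ v.Prime ∧ (∃ r : ℕ, r.Prime ∧ r ∣ v - 1 ∧ (v : ℝ) ^ θ ≤ r) ∧ Bad v}

theorem main {θ δ : ℝ} (hθ : 2 / 3 < θ) (hδ : δ < 2 * θ - 4 / 3) :
    ∃ C : ℝ, ∀ X : ℕ, ((BadSet θ X).ncard : ℝ) ≤ C * (X : ℝ) ^ (1 - δ) := by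
  classical
  by_cases hθ1 : 1 ≤ θ
  · refine ⟨0, fun X => ?_⟩
    have : BadSet θ X = ∅ := by
      rw [Set.eq_empty_iff_forall_notMem]
      rintro v ⟨_, hv, ⟨r, _, hrv, hrθ⟩, _⟩
      have hv1 : (1 : ℝ) < v := by exact_mod_cast hv.one_lt
      have h3 : (v : ℝ) ^ (1 : ℝ) ≤ (v : ℝ) ^ θ := Real.rpow_le_rpow_of_exponent_le hv1.le hθ1
      rw [Real.rpow_one] at h3
      have h4 : r ≤ v - 1 := Nat.le_of_dvd (by have := hv.two_le; omega) hrv
      have h5 : r < v := by have := hv.two_le; omega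
      have h6 : (r : ℝ) < v := by exact_mod_cast h5
      linarith
    rw [this, Set.ncard_empty]
    simp
  push Not at hθ1
  set V0 : ℕ := ⌈(8 : ℝ) ^ (1 / (θ - 2 / 3))⌉₊ with hV0
  set ε : ℝ := 2 * θ - 4 / 3 - δ with hε
  have hεpos : 0 < ε := by linarith
  refine ⟨V0 + 16 * (2 + 3 / ε) ^ 3, fun X => ?_⟩
  rcases Nat.eq_zero_or_pos X with rfl | hX
  · have : BadSet θ 0 = ∅ := by
      rw [Set.eq_empty_iff_forall_notMem]
      rintro v ⟨h, hv, _⟩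
      have := hv.two_le
      omega
    rw [this, Set.ncard_empty]
    have h1 : (1 - δ : ℝ) ≠ 0 := by
      intro h
      linarith
    simp [Real.zero_rpow h1]
  have hX1 : (1 : ℝ) ≤ X := by exact_mod_cast hX
  have hX0 : (0 : ℝ) < X := by linarith
  have hθ23 : 0 < θ - 2 / 3 := by linarith
  have hsub : BadSet θ X ⊆
      ((Finset.range V0 ∪ (S1 (PP X) (YY θ X) ∪ S2 (PP X) (YY θ X)) : Finset ℕ) : Set ℕ) := by
    rintro v ⟨hvX, hv, ⟨r, hr, hrv, hrθ⟩, hbad⟩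
    rw [Finset.mem_coe, Finset.mem_union, Finset.mem_range]
    by_cases hvV : v < V0
    · exact Or.inl hvV
    · right
      push Not at hvV
      refine mem_exc hθ hv hvX hr hrv hrθ ?_ hbad
      have h1 : (8 : ℝ) ^ (1 / (θ - 2 / 3)) ≤ v := (Nat.le_ceil _).trans (by exact_mod_cast hvV)
      calc (8 : ℝ) = ((8 : ℝ) ^ (1 / (θ - 2 / 3))) ^ (θ - 2 / 3) := by
            rw [← Real.rpow_mul (by norm_num), one_div, inv_mul_cancel₀ hθ23.ne', Real.rpow_one]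
        _ ≤ (v : ℝ) ^ (θ - 2 / 3) :=
            Real.rpow_le_rpow (Real.rpow_nonneg (by norm_num) _) h1 hθ23.le
  have hcard : (BadSet θ X).ncard ≤
      (Finset.range V0 ∪ (S1 (PP X) (YY θ X) ∪ S2 (PP X) (YY θ X))).card := by
    rw [← Set.ncard_coe_finset]
    exact Set.ncard_le_ncard hsub (Finset.finite_toSet _)
  have hcard2 : ((BadSet θ X).ncard : ℝ) ≤
      V0 + ((S1 (PP X) (YY θ X) ∪ S2 (PP X) (YY θ X)).card : ℝ) := by
    have h1 := Finset.card_union_le (Finset.range V0) (S1 (PP X) (YY θ X) ∪ S2 (PP X) (YY θ X))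
    rw [Finset.card_range] at h1
    exact_mod_cast hcard.trans h1
  -- sizes of the parameters
  have hP1 : 1 ≤ PP X := by
    unfold PP
    have h5 : (1 : ℝ) ≤ (X : ℝ) ^ ((1 : ℝ) / 3) := Real.one_le_rpow hX1 (by norm_num)
    exact_mod_cast h5.trans (Nat.le_ceil _)
  have hP2 : (PP X : ℝ) ≤ 2 * (X : ℝ) ^ ((1 : ℝ) / 3) := by
    unfold PP
    have h4 : (⌈(X : ℝ) ^ ((1 : ℝ) / 3)⌉₊ : ℝ) < (X : ℝ) ^ ((1 : ℝ) / 3) + 1 :=
      Nat.ceil_lt_add_one (Real.rpow_nonneg hX0.le _)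
    have h5 : (1 : ℝ) ≤ (X : ℝ) ^ ((1 : ℝ) / 3) := Real.one_le_rpow hX1 (by norm_num)
    linarith
  have hY2 : (YY θ X : ℝ) ≤ (X : ℝ) ^ (1 - θ) := Nat.floor_le (Real.rpow_nonneg hX0.le _)
  have hYP : YY θ X ≤ PP X := by
    have h3 : (YY θ X : ℝ) ≤ (X : ℝ) ^ ((1 : ℝ) / 3) :=
      hY2.trans (Real.rpow_le_rpow_of_exponent_le hX1 (by linarith))
    exact_mod_cast h3.trans (Nat.le_ceil _)
  have hLX : 0 ≤ Real.log X := Real.log_natCast_nonneg X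
  have hlogP : Real.log (PP X) ≤ 1 + Real.log X := by
    calc Real.log (PP X) ≤ Real.log (2 * (X : ℝ) ^ ((1 : ℝ) / 3)) :=
          Real.log_le_log (by exact_mod_cast hP1) hP2
      _ = Real.log 2 + 1 / 3 * Real.log X := by
          rw [Real.log_mul (by norm_num) (Real.rpow_pos_of_pos hX0 _).ne', Real.log_rpow hX0]
      _ ≤ 1 + Real.log X := by
          have := Real.log_two_lt_d9
          nlinarith
  have hLP : 0 ≤ Real.log (PP X) := Real.log_natCast_nonneg _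
  have hS := card_S (PP X) (YY θ X) hP1 hYP
  have hlog : Real.log X ≤ 3 / ε * (X : ℝ) ^ (ε / 3) := by
    have h1 := Real.log_le_rpow_div hX0.le (ε := ε / 3) (by positivity)
    calc Real.log X ≤ (X : ℝ) ^ (ε / 3) / (ε / 3) := h1
      _ = 3 / ε * (X : ℝ) ^ (ε / 3) := by field_simp
  have hXe : (1 : ℝ) ≤ (X : ℝ) ^ (ε / 3) := Real.one_le_rpow hX1 (by positivity)
  have hlog3 : (1 + Real.log (PP X)) ^ 3 ≤ (2 + 3 / ε) ^ 3 * (X : ℝ) ^ ε := by
    have h1 : 1 + Real.log (PP X) ≤ (2 + 3 / ε) * (X : ℝ) ^ (ε / 3) := by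
      calc 1 + Real.log (PP X) ≤ 2 + Real.log X := by linarith
        _ ≤ 2 * (X : ℝ) ^ (ε / 3) + 3 / ε * (X : ℝ) ^ (ε / 3) := by linarith
        _ = (2 + 3 / ε) * (X : ℝ) ^ (ε / 3) := by ring
    calc (1 + Real.log (PP X)) ^ 3 ≤ ((2 + 3 / ε) * (X : ℝ) ^ (ε / 3)) ^ 3 :=
          pow_le_pow_left₀ (by linarith) h1 3
      _ = (2 + 3 / ε) ^ 3 * (X : ℝ) ^ ε := by
          rw [mul_pow]
          congr 1
          rw [← Real.rpow_natCast, ← Real.rpow_mul hX0.le]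
          congr 1
          push_cast
          ring
  have hmainpow : (X : ℝ) ^ ((1 : ℝ) / 3) * ((X : ℝ) ^ (1 - θ)) ^ 2 * (X : ℝ) ^ ε =
      (X : ℝ) ^ (1 - δ) := by
    rw [← Real.rpow_natCast ((X : ℝ) ^ (1 - θ)), ← Real.rpow_mul hX0.le, ← Real.rpow_add hX0,
      ← Real.rpow_add hX0]
    congr 1
    push_cast
    rw [hε]
    ring
  have hbound : 8 * (PP X : ℝ) * (YY θ X : ℝ) ^ 2 * (1 + Real.log (PP X)) ^ 3 ≤
      16 * (2 + 3 / ε) ^ 3 * (X : ℝ) ^ (1 - δ) := by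
    calc 8 * (PP X : ℝ) * (YY θ X : ℝ) ^ 2 * (1 + Real.log (PP X)) ^ 3 ≤
        8 * (2 * (X : ℝ) ^ ((1 : ℝ) / 3)) * ((X : ℝ) ^ (1 - θ)) ^ 2 *
          ((2 + 3 / ε) ^ 3 * (X : ℝ) ^ ε) := by
          refine mul_le_mul (mul_le_mul ?_ ?_ (by positivity) (by positivity)) hlog3
            (by positivity) (by positivity)
          · linarith
          · exact pow_le_pow_left₀ (Nat.cast_nonneg _) hY2 2
      _ = 16 * (2 + 3 / ε) ^ 3 * ((X : ℝ) ^ ((1 : ℝ) / 3) * ((X : ℝ) ^ (1 - θ)) ^ 2 *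
            (X : ℝ) ^ ε) := by ring
      _ = 16 * (2 + 3 / ε) ^ 3 * (X : ℝ) ^ (1 - δ) := by rw [hmainpow]
  have hV : (V0 : ℝ) ≤ V0 * (X : ℝ) ^ (1 - δ) := by
    have h1 : (1 : ℝ) ≤ (X : ℝ) ^ (1 - δ) := Real.one_le_rpow hX1 (by linarith)
    have h2 : (0 : ℝ) ≤ V0 := Nat.cast_nonneg _
    nlinarith
  calc ((BadSet θ X).ncard : ℝ) ≤
      V0 + ((S1 (PP X) (YY θ X) ∪ S2 (PP X) (YY θ X)).card : ℝ) := hcard2
    _ ≤ V0 * (X : ℝ) ^ (1 - δ) + 16 * (2 + 3 / ε) ^ 3 * (X : ℝ) ^ (1 - δ) := by linarith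
    _ = (V0 + 16 * (2 + 3 / ε) ^ 3) * (X : ℝ) ^ (1 - δ) := by ring

end Pool.Agent.H10.MU
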