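import Pool.Agent.H10.MU.Corr

/-! # Group ring elements `F` with `F F^* = m ^ 2` (MP_3e22f2_co) -/

set_option autoImplicit false

namespace Pool.Agent.H10.MU

open Finset Pool.Agent.H58.Mult
open scoped ComplexConjugate

/-- `f f^* = M`. -/
def AC {N : ℕ} [NeZero N] (f : ZMod N → ℤ) (M : ℤ) : Prop :=
  ∀ g : ZMod N, ∑ y, f (y + g) * f y = if g = 0 then M else 0

variable {v : ℕ} [NeZero v]

theorem AC.sq {f : ZMod v → ℤ} {M : ℤ} (h : AC f M) : ∑ y, f y ^ 2 = M := by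
  have h0 := h 0
  rw [if_pos rfl] at h0
  rw [← h0]
  exact Finset.sum_congr rfl fun y _ => by rw [add_zero, pow_two]

theorem AC.of_norm {f : ZMod v → ℤ} {M : ℤ}
    (h : ∀ a, ft (χ v) f a * conj (ft (χ v) f a) = (M : ℂ)) : AC f M := by
  intro g
  have h1 := autocorr (g := fun x => (f x : ℂ)) (M := (M : ℂ))
    (fun b => by rw [cft_cast]; exact h b) g
  have h2 : ((∑ y, f (y + g) * f y : ℤ) : ℂ) = ((if g = 0 then M else 0 : ℤ) : ℂ) := by
    push_cast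
    rw [← h1]
    refine Finset.sum_congr rfl fun y _ => ?_
    rw [map_intCast]
  exact_mod_cast h2

section ring

variable {R : Type*} [CommRing R] (ψ : AddChar (ZMod v) R)

theorem ft_corr_gen (f : ZMod v → ℤ) (u : (ZMod v)ˣ) (a : ZMod v) :
    ft ψ (corr f u) a = ft ψ f (a * u) * ft ψ f (-a) := by
  unfold ft corr
  rw [Finset.sum_mul_sum]
  have h1 : ∀ g : ZMod v, ((∑ y, f ((u⁻¹ : (ZMod v)ˣ) * (y + g)) * f y : ℤ) : R) * ψ (a * g) =
      ∑ y, (f ((u⁻¹ : (ZMod v)ˣ) * (y + g)) : R) * ψ (a * (y + g)) *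
        ((f y : R) * ψ (-a * y)) := by
    intro g
    push_cast
    rw [Finset.sum_mul]
    refine Finset.sum_congr rfl fun y _ => ?_
    have h2 : ψ (a * g) = ψ (a * (y + g)) * ψ (-a * y) := by
      rw [← AddChar.map_add_eq_mul]
      congr 1
      ring
    rw [h2]
    ring
  simp_rw [h1]
  rw [Finset.sum_comm]
  conv_rhs => rw [Finset.sum_comm]
  refine Finset.sum_congr rfl fun y _ => ?_
  rw [← Finset.sum_mul, ← Finset.sum_mul]
  congr 1
  have h3 : ∑ g : ZMod v, (f ((u⁻¹ : (ZMod v)ˣ) * (y + g)) : R) * ψ (a * (y + g)) =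
      ∑ h : ZMod v, (f ((u⁻¹ : (ZMod v)ˣ) * h) : R) * ψ (a * h) :=
    Fintype.sum_equiv (Equiv.addLeft y) _ _ fun g => rfl
  rw [h3]
  refine Fintype.sum_equiv (Units.mulLeft u⁻¹) _ _ fun h => ?_
  show (f ((u⁻¹ : (ZMod v)ˣ) * h) : R) * ψ (a * h) =
    (f ((u⁻¹ : (ZMod v)ˣ) * h) : R) * ψ (a * u * ((u⁻¹ : (ZMod v)ˣ) * h))
  congr 2
  rw [mul_assoc a, ← mul_assoc (u : ZMod v), Units.mul_inv, one_mul]

theorem ft_of_AC {f : ZMod v → ℤ} {M : ℤ} (h : AC f M) (a : ZMod v) :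
    ft ψ f a * ft ψ f (-a) = (M : R) := by
  have h1 := ft_corr_gen ψ f 1 a
  have h2 : ∀ g, corr f 1 g = if g = 0 then M else 0 := by
    intro g
    rw [← h g]
    unfold corr
    refine Finset.sum_congr rfl fun y _ => ?_
    simp
  have h3 : ft ψ (corr f 1) a = (M : R) := by
    unfold ft
    simp_rw [h2]
    rw [Finset.sum_eq_single 0]
    · simp
    · intro b _ hb
      rw [if_neg hb]
      simp
    · exact fun h => absurd (Finset.mem_univ _) h
  rw [← h3, h1, Units.val_one, mul_one]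

end ring

/-- The divisibility lemma for `F`. -/
theorem div_corr {f : ZMod v → ℤ} {M : ℤ} (hf : AC f M) {p : ℕ} (hp : p.Prime)
    (hpv : Nat.Coprime p v) (u : (ZMod v)ˣ) {j : ℕ} (hu : (u : ZMod v) = (p : ZMod v) ^ j)
    {b : ℕ} (hb : (p : ℤ) ^ b ∣ M) (g : ZMod v) : (p : ℤ) ^ b ∣ corr f u g := by
  obtain ⟨O, _, _, z, hch, hz, hadj, hgal, hdvd⟩ := exists_cyclotomic v
  obtain ⟨σ, hσ⟩ := hgal u
  let ψ : AddChar (ZMod v) O := AddChar.zmodChar v hz.pow_eq_one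
  have hψ : ψ.IsPrimitive := AddChar.zmodChar_primitive_of_primitive_root v hz
  have hψz : ∀ x : ZMod v, ψ x = z ^ x.val := fun x => AddChar.zmodChar_apply hz.pow_eq_one x
  have hσψ : ∀ x : ZMod v, σ (ψ x) = ψ (u * x) := by
    intro x
    rw [hψz, hψz, map_pow, hσ, ← pow_mul]
    refine pow_eq_pow_of_modEq hz.pow_eq_one ?_
    rw [ZMod.val_mul]
    exact (Nat.mod_modEq _ _).symm
  have hσS : ∀ a : ZMod v, σ (ft ψ f a) = ft ψ f (a * u) := by
    intro a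
    unfold ft
    rw [map_sum]
    refine Finset.sum_congr rfl fun x _ => ?_
    rw [map_mul, map_intCast, hσψ]
    congr 2
    ring
  have hmod : (u : ZMod v).val ≡ p ^ j [MOD v] := by
    rw [← ZMod.natCast_eq_natCast_iff, ZMod.natCast_zmod_val, hu]
    push_cast
    rfl
  have hp0 : (p : O) ≠ 0 := by exact_mod_cast hp.ne_zero
  have hP : ∀ P : Ideal O, P.IsPrime → (p : O) ∈ P → ∀ x ∈ P, σ x ∈ P := by
    intro P hPp hpP x hx
    have h1 : σ z - z ^ p ^ j ∈ P := by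
      have h0 : σ z = z ^ p ^ j := by
        rw [hσ]
        exact pow_eq_pow_of_modEq hz.pow_eq_one hmod
      rw [h0, sub_self]
      exact P.zero_mem
    have h2 := frob_of_adjoin σ hp j z hadj P hpP h1 x
    have h3 : x ^ p ^ j ∈ P := P.pow_mem_of_mem hx _ (pow_pos hp.pos _)
    have h4 := P.add_mem h2 h3
    rwa [sub_add_cancel] at h4
  have hb' : (p : O) ^ b ∣ (M : O) := by
    have h := (Int.castRingHom O).map_dvd hb
    simpa using h
  have h1 : ∀ a : ZMod v, (p : O) ^ b ∣ ft ψ (corr f u) a := by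
    intro a
    rw [ft_corr_gen, ← hσS]
    refine dvd_twist σ (p : O) hp0 hP b ?_
    rw [ft_of_AC ψ hf]
    exact hb'
  have h2 : (p : O) ^ b ∣ (v : O) * (corr f u g : O) := by
    rw [← ft_inv hψ]
    exact Finset.dvd_sum fun a _ => (h1 a).mul_right _
  have h3 : (p : ℤ) ^ b ∣ (v : ℤ) * corr f u g := by
    apply hdvd
    push_cast
    exact h2
  have hpv' : IsCoprime ((p : ℤ) ^ b) (v : ℤ) := by
    refine IsCoprime.pow_left ?_
    rw [Nat.isCoprime_iff_coprime]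
    exact hpv
  exact hpv'.dvd_of_dvd_mul_left h3

theorem dvd_corr_all {f : ZMod v → ℤ} {m : ℕ} (hf : AC f ((m : ℤ) ^ 2))
    (hcop : Nat.Coprime m v) (u : (ZMod v)ˣ)
    (hu : ∀ p : ℕ, p.Prime → p ∣ m → ∃ j : ℕ, (u : ZMod v) = (p : ZMod v) ^ j) (g : ZMod v) :
    (m : ℤ) ^ 2 ∣ corr f u g := by
  have e : ((m : ℤ) ^ 2) = ((m ^ 2 : ℕ) : ℤ) := by push_cast; ring
  rw [e, Int.natCast_dvd, Nat.dvd_iff_prime_pow_dvd_dvd]
  intro p k hp hk
  rcases Nat.eq_zero_or_pos k with rfl | hkpos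
  · simp
  have hpn : p ∣ m := hp.dvd_of_dvd_pow ((dvd_pow_self p hkpos.ne').trans hk)
  obtain ⟨j, hj⟩ := hu p hp hpn
  have hb : (p : ℤ) ^ k ∣ (m : ℤ) ^ 2 := by
    rw [e]
    exact_mod_cast hk
  have h2 := div_corr hf hp (Nat.Coprime.coprime_dvd_left hpn hcop) u hj hb g
  rw [← Int.natCast_dvd]
  exact_mod_cast h2

/-- An `F` with `F F^* = m ^ 2` and sum `m` is, up to translation, fixed by the common powers of
the primes dividing `m`. -/
theorem exists_shift {f : ZMod v → ℤ} {m : ℕ} (hm : 0 < m) (hf : AC f ((m : ℤ) ^ 2))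
    (hs : ∑ y, f y = m) (u : (ZMod v)ˣ) (hd : ∀ g, (m : ℤ) ^ 2 ∣ corr f u g) :
    ∃ g : ZMod v, ∀ y, f ((u⁻¹ : (ZMod v)ˣ) * (y + g)) = f y := by
  have hft : ∀ a, ft (χ v) f a * conj (ft (χ v) f a) = ((m : ℤ) : ℂ) ^ 2 := by
    intro a
    have h1 : conj (ft (χ v) f a) = ft (χ v) f (-a) := by
      unfold ft
      rw [map_sum]
      refine Finset.sum_congr rfl fun x _ => ?_
      rw [map_mul, map_intCast, conj_χ]
      congr 2
      ring
    rw [h1, ft_of_AC (χ v) hf]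
    push_cast
    ring
  have hsq : ∑ y, f y ^ 2 = (m : ℤ) ^ 2 := hf.sq
  choose c hc using hd
  have hm0 : (m : ℤ) ≠ 0 := by exact_mod_cast hm.ne'
  have hcs : ∑ g, c g = 1 := by
    have h1 := sum_corr f u
    simp_rw [hc] at h1
    rw [← Finset.mul_sum, hs] at h1
    have h2 : (m : ℤ) ^ 2 * ∑ g, c g = (m : ℤ) ^ 2 * 1 := by rw [h1]; ring
    exact mul_left_cancel₀ (pow_ne_zero 2 hm0) h2
  have hcft : ∀ a, ft (χ v) (corr f u) a * conj (ft (χ v) (corr f u) a) =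
      (((m : ℤ) ^ 2 : ℤ) : ℂ) ^ 2 := by
    intro a
    rw [ft_corr, map_mul]
    have h1 := hft (a * u)
    have h2 := hft (-a)
    push_cast at h1 h2 ⊢
    calc ft (χ v) f (a * u) * ft (χ v) f (-a) * (conj (ft (χ v) f (a * u)) *
        conj (ft (χ v) f (-a))) = (ft (χ v) f (a * u) * conj (ft (χ v) f (a * u))) *
        (ft (χ v) f (-a) * conj (ft (χ v) f (-a))) := by ring
      _ = ((m : ℂ) ^ 2) ^ 2 := by rw [h1, h2]; ring
  have hcq : ∑ g, c g ^ 2 = 1 := by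
    have h1 := sum_sq hcft
    simp_rw [hc] at h1
    have h2 : ∑ g, ((m : ℤ) ^ 2 * c g) ^ 2 = ((m : ℤ) ^ 2) ^ 2 * ∑ g, c g ^ 2 := by
      rw [Finset.mul_sum]
      exact Finset.sum_congr rfl fun g _ => by ring
    rw [h2] at h1
    have h3 : ((m : ℤ) ^ 2) ^ 2 * ∑ g, c g ^ 2 = ((m : ℤ) ^ 2) ^ 2 * 1 := by rw [h1]; ring
    exact mul_left_cancel₀ (pow_ne_zero 2 (pow_ne_zero 2 hm0)) h3
  obtain ⟨g, hg⟩ : ∃ g, 1 ≤ c g := by
    by_contra hcon
    push Not at hcon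
    have : ∑ g, c g ≤ 0 := Finset.sum_nonpos fun g _ => by have := hcon g; omega
    omega
  have hg1 : c g = 1 := by
    have h1 : c g ^ 2 ≤ ∑ g, c g ^ 2 :=
      Finset.single_le_sum (f := fun g => c g ^ 2) (fun _ _ => sq_nonneg _) (Finset.mem_univ g)
    rw [hcq] at h1
    nlinarith
  refine ⟨g, ?_⟩
  have hperm : ∑ y, f ((u⁻¹ : (ZMod v)ˣ) * (y + g)) ^ 2 = (m : ℤ) ^ 2 := by
    rw [← hsq]
    exact Fintype.sum_equiv ((Equiv.addRight g).trans (Units.mulLeft u⁻¹)) _ _ fun y => rfl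
  have hcr : ∑ y, f ((u⁻¹ : (ZMod v)ˣ) * (y + g)) * f y = (m : ℤ) ^ 2 := by
    have := hc g
    unfold corr at this
    rw [this, hg1, mul_one]
  have hz : ∑ y, (f ((u⁻¹ : (ZMod v)ˣ) * (y + g)) - f y) ^ 2 = 0 := by
    have h1 : ∀ y, (f ((u⁻¹ : (ZMod v)ˣ) * (y + g)) - f y) ^ 2 =
        f ((u⁻¹ : (ZMod v)ˣ) * (y + g)) ^ 2 - 2 * (f ((u⁻¹ : (ZMod v)ˣ) * (y + g)) * f y) +
          f y ^ 2 := by
      intro y
      ring
    simp_rw [h1]
    rw [Finset.sum_add_distrib, Finset.sum_sub_distrib, ← Finset.mul_sum, hperm, hcr, hsq]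
    ring
  intro y
  have h1 := (Finset.sum_eq_zero_iff_of_nonneg (fun y _ => sq_nonneg _)).1 hz y
    (Finset.mem_univ y)
  have h2 := pow_eq_zero_iff (two_ne_zero) |>.1 h1
  omega

/-- Normalisation: a translate of `f` is exactly invariant under all common powers. -/
theorem normalise {f : ZMod v → ℤ} {m : ℕ} (hm : 0 < m) (hf : AC f ((m : ℤ) ^ 2))
    (hs : ∑ y, f y = m) (hcop : Nat.Coprime m v) :
    ∃ c : ZMod v, ∀ u : (ZMod v)ˣ,
      (∀ p : ℕ, p.Prime → p ∣ m → ∃ j : ℕ, (u : ZMod v) = (p : ZMod v) ^ j) →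
      ∀ y, f (u * y + c) = f (y + c) := by
  let mu : (ZMod v)ˣ := ZMod.unitOfCoprime m hcop
  have hmu : (mu : ZMod v) = m := ZMod.coe_unitOfCoprime m hcop
  refine ⟨((mu⁻¹ : (ZMod v)ˣ) : ZMod v) * ∑ y, (f y : ZMod v) * y, fun u hu => ?_⟩
  set c : ZMod v := ((mu⁻¹ : (ZMod v)ˣ) : ZMod v) * ∑ y, (f y : ZMod v) * y with hcdef
  have hc : (m : ZMod v) * c = ∑ y, (f y : ZMod v) * y := by
    rw [hcdef, ← mul_assoc, ← hmu, Units.mul_inv, one_mul]
  obtain ⟨g, hg⟩ := exists_shift hm hf hs u (dvd_corr_all hf hcop u hu)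
  have hsZ : ∑ y, (f y : ZMod v) = m := by
    have := congrArg (fun z : ℤ => (z : ZMod v)) hs
    push_cast at this
    exact this
  -- the first moment
  have h1 : ∑ y, (f y : ZMod v) * y = u * (∑ y, (f y : ZMod v) * y) - m * g := by
    have e1 : ∑ y, (f y : ZMod v) * y = ∑ y, (f ((u⁻¹ : (ZMod v)ˣ) * (y + g)) : ZMod v) * y :=
      Finset.sum_congr rfl fun y _ => by rw [hg y]
    have e2 : ∑ y, (f ((u⁻¹ : (ZMod v)ˣ) * (y + g)) : ZMod v) * y =
        ∑ x, (f x : ZMod v) * (u * x - g) := by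
      refine Fintype.sum_equiv ((Equiv.addRight g).trans (Units.mulLeft u⁻¹)) _ _ fun y => ?_
      show (f ((u⁻¹ : (ZMod v)ˣ) * (y + g)) : ZMod v) * y =
        (f ((u⁻¹ : (ZMod v)ˣ) * (y + g)) : ZMod v) * (u * ((u⁻¹ : (ZMod v)ˣ) * (y + g)) - g)
      congr 1
      rw [← mul_assoc, Units.mul_inv, one_mul]
      ring
    refine (e1.trans e2).trans ?_
    have e3 : ∀ x, (f x : ZMod v) * (u * x - g) = u * ((f x : ZMod v) * x) - (f x : ZMod v) * g := by
      intro x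
      ring
    simp_rw [e3]
    rw [Finset.sum_sub_distrib, ← Finset.mul_sum, ← Finset.sum_mul, hsZ]
  have h2 : (m : ZMod v) * c = (m : ZMod v) * (u * c - g) := by
    rw [hc]
    rw [h1]
    rw [← hc]
    ring
  have h3 : c = u * c - g := by
    have := congrArg (fun z => ((mu⁻¹ : (ZMod v)ˣ) : ZMod v) * z) h2
    simp only [← mul_assoc, ← hmu, Units.inv_mul, one_mul] at this
    exact this
  intro y
  have h4 := hg (u * y + c)
  have h5 : ((u⁻¹ : (ZMod v)ˣ) : ZMod v) * (u * y + c + g) = y + c := by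
    have : u * y + c + g = u * (y + c) := by
      linear_combination h3
    rw [this, ← mul_assoc, Units.inv_mul, one_mul]
  rw [h5] at h4
  exact h4.symm

end Pool.Agent.H10.MU
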