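import Pool.Agent.H10.MU.Supp

/-! # The multiplier theorem with a linear order condition (MP_3e22f2_co) -/

set_option autoImplicit false

namespace Pool.Agent.H10.MU

open Finset Pool.Agent.H58.Mult

/-- Lifting a `w`-torsion element. -/
theorem lift_tors {l M w : ℕ} (hw : w ≠ 0) [NeZero M] [NeZero (l * M)] (h : M ∣ l * M)
    (hlw : Nat.Coprime l w) (y : ZMod M) (hy : (w : ZMod M) * y = 0) :
    ∃ x : ZMod (l * M), (w : ZMod (l * M)) * x = 0 ∧ ZMod.castHom h (ZMod M) x = y := by
  obtain ⟨e, -, he⟩ := Nat.exists_mul_mod_eq_of_coprime 1 hlw hw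
  have he' : l * e ≡ 1 [MOD w] := he
  have h1 : M ∣ w * y.val := by
    rw [← ZMod.natCast_eq_zero_iff]
    push_cast
    rw [ZMod.natCast_zmod_val, hy]
  refine ⟨((y.val * (l * e) : ℕ) : ZMod (l * M)), ?_, ?_⟩
  · rw [← Nat.cast_mul, ZMod.natCast_eq_zero_iff]
    obtain ⟨c, hc⟩ := h1
    refine ⟨c * e, ?_⟩
    calc w * (y.val * (l * e)) = (w * y.val) * (l * e) := by ring
      _ = M * c * (l * e) := by rw [hc]
      _ = l * M * (c * e) := by ring
  · rw [map_natCast]
    have h2 : y.val * (l * e) ≡ y.val * 1 [MOD M] := by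
      have h3 : (M : ℤ) ∣ (y.val : ℤ) * ((l : ℤ) * e - 1) := by
        have h4 : (w : ℤ) ∣ (l : ℤ) * e - 1 := by
          have := (Nat.modEq_iff_dvd.1 he'.symm)
          push_cast at this
          exact this
        obtain ⟨c, hc⟩ := h4
        rw [hc]
        have h5 : (M : ℤ) ∣ ((w * y.val : ℕ) : ℤ) := by exact_mod_cast h1
        have h6 : (y.val : ℤ) * ((w : ℤ) * c) = ((w * y.val : ℕ) : ℤ) * c := by
          push_cast
          ring
        rw [h6]
        exact h5.mul_right _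
      symm
      rw [Nat.modEq_iff_dvd]
      push_cast
      have h7 : (y.val : ℤ) * ((l : ℤ) * e) - (y.val : ℤ) * 1 = (y.val : ℤ) * ((l : ℤ) * e - 1) := by
        ring
      rw [h7]
      exact h3
    have h8 := (ZMod.natCast_eq_natCast_iff _ _ _).2 h2
    rw [h8, mul_one, ZMod.natCast_zmod_val]

/-- **Support theorem.** -/
theorem supp_main {w m : ℕ} (hw : w ≠ 0) (hm : 0 < m) (U : Set ℕ) (d : ℕ) :
    ∀ (N : ℕ) (_ : NeZero N), N = d * w → (∀ u ∈ U, Nat.Coprime u N) →
      (∀ l : ℕ, l.Prime → l ∣ d → ∃ u ∈ U, u ≡ 1 [MOD w] ∧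
        ∀ i, 0 < i → i < 2 * m → ¬ u ^ i ≡ 1 [MOD l]) →
      ∀ f : ZMod N → ℤ, AC f ((m : ℤ) ^ 2) → ∑ y, f y = m →
        (∀ u ∈ U, ∀ x, f ((u : ZMod N) * x) = f x) → ∀ x, f x ≠ 0 → (w : ZMod N) * x = 0 := by
  classical
  induction d using induction_on_primes with
  | zero =>
    intro N hN h
    rw [zero_mul] at h
    exact absurd h (NeZero.ne N)
  | one =>
    intro N hN h _ _ f _ _ _ x _
    rw [one_mul] at h
    subst h
    rw [ZMod.natCast_self, zero_mul]
  | prime_mul l a hl ih =>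
    intro N hN h hU hord f hf hs hinv x hx
    have hN' : N = l * (a * w) := by rw [h]; ring
    subst hN'
    have ha : a ≠ 0 := by
      rintro rfl
      exact NeZero.ne (l * (0 * w)) (by ring)
    have hM : NeZero (a * w) := ⟨Nat.mul_ne_zero ha hw⟩
    have hdiv : a * w ∣ l * (a * w) := dvd_mul_left _ _
    have hq : ∑ y, f y ^ 2 = (m : ℤ) ^ 2 := hf.sq
    have hfs := pf_AC hdiv hf
    have hss := pf_sum hdiv f
    rw [hs] at hss
    have hqq : ∑ y, pf hdiv f y ^ 2 = (m : ℤ) ^ 2 := hfs.sq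
    have ih' := ih (a * w) hM rfl
      (fun u hu => Nat.Coprime.coprime_dvd_right hdiv (hU u hu))
      (fun l' hl' hla => hord l' hl' (hla.mul_left l))
      (pf hdiv f) hfs hss
      (fun u hu y => pf_inv hdiv (hU u hu) (hinv u hu) y)
    obtain ⟨u, huU, huw, hui⟩ := hord l hl (dvd_mul_right _ _)
    have hul : Nat.Coprime u l := Nat.Coprime.coprime_dvd_right (dvd_mul_right _ _) (hU u huU)
    have hlw : Nat.Coprime l w := by
      rw [Nat.Prime.coprime_iff_not_dvd hl]
      intro hlw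
      exact hui 1 one_pos (by omega) (by rw [pow_one]; exact huw.of_dvd hlw)
    have hord2 : 2 * m ≤ orderOf (ZMod.unitOfCoprime u hul) := by
      by_contra hcon
      push Not at hcon
      have hfact : Fact l.Prime := ⟨hl⟩
      have hne : NeZero l := ⟨hl.ne_zero⟩
      refine hui _ (orderOf_pos (ZMod.unitOfCoprime u hul)) hcon ?_
      rw [← ZMod.natCast_eq_natCast_iff]
      push_cast
      have h1 : ((ZMod.unitOfCoprime u hul ^ orderOf (ZMod.unitOfCoprime u hul) : (ZMod l)ˣ) :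
          ZMod l) = ((1 : (ZMod l)ˣ) : ZMod l) := by rw [pow_orderOf_eq_one]
      rwa [Units.val_pow_eq_pow_val, ZMod.coe_unitOfCoprime, Units.val_one] at h1
    -- equality on torsion points
    have heq : ∀ x0 : ZMod (l * (a * w)), (w : ZMod (l * (a * w))) * x0 = 0 →
        f x0 = pf hdiv f (ZMod.castHom hdiv (ZMod (a * w)) x0) := by
      intro x0 hx0
      have hux : (u : ZMod (l * (a * w))) * x0 = x0 := by
        have h1 : (w : ℤ) ∣ (u : ℤ) - 1 := by
          have := Nat.modEq_iff_dvd.1 huw.symm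
          push_cast at this
          exact this
        obtain ⟨c, hc⟩ := h1
        have h2 : ((u : ℤ) : ZMod (l * (a * w))) = 1 + (w : ZMod (l * (a * w))) * (c : ℤ) := by
          have h3 : (u : ℤ) = 1 + (w : ℤ) * c := by linarith
          rw [h3]
          push_cast
          ring
        have h4 : (u : ZMod (l * (a * w))) = 1 + (w : ZMod (l * (a * w))) * (c : ℤ) := by
          rw [← h2]
          push_cast
          rfl
        rw [h4, add_mul, one_mul, mul_right_comm, hx0, zero_mul, add_zero]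
      have h1 := fibre_dvd hl hdiv (hinv u huU) hul hux
      have h2 := ne_neg hm hs hq x0
      have h3 := ne_neg hm hss hqq (ZMod.castHom hdiv (ZMod (a * w)) x0)
      have h4 := Int.eq_zero_of_abs_lt_dvd h1 (by
        rw [abs_lt]
        have h5 : (2 * m : ℤ) ≤ ((orderOf (ZMod.unitOfCoprime u hul) : ℕ) : ℤ) := by
          exact_mod_cast hord2
        constructor <;> omega)
      omega
    -- sum of squares over the torsion points
    let T : Finset (ZMod (a * w)) := Finset.univ.filter fun y => (w : ZMod (a * w)) * y = 0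
    have hT : ∑ y ∈ T, pf hdiv f y ^ 2 = (m : ℤ) ^ 2 := by
      rw [← hqq]
      refine Finset.sum_subset (Finset.subset_univ _) fun y _ hy => ?_
      have h1 : pf hdiv f y = 0 := by
        by_contra h2
        exact hy (Finset.mem_filter.2 ⟨Finset.mem_univ _, ih' y h2⟩)
      rw [h1]
      ring
    have hlift : ∀ y ∈ T, ∃ x0 : ZMod (l * (a * w)), (w : ZMod (l * (a * w))) * x0 = 0 ∧
        ZMod.castHom hdiv (ZMod (a * w)) x0 = y :=
      fun y hy => lift_tors hw hdiv hlw y (Finset.mem_filter.1 hy).2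
    choose! s hs1 hs2 using hlift
    have hinj : Set.InjOn s (T : Set (ZMod (a * w))) := by
      intro y hy y' hy' hyy
      rw [← hs2 y hy, ← hs2 y' hy', hyy]
    by_contra hcon
    have h1 : ∑ z ∈ insert x (T.image s), f z ^ 2 ≤ ∑ z, f z ^ 2 :=
      Finset.sum_le_sum_of_subset_of_nonneg (Finset.subset_univ _) fun _ _ _ => sq_nonneg _
    have h2 : x ∉ T.image s := by
      intro h3
      obtain ⟨y, hy, rfl⟩ := Finset.mem_image.1 h3
      exact hcon (hs1 y hy)
    rw [Finset.sum_insert h2, Finset.sum_image hinj, hq] at h1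
    have h4 : ∑ y ∈ T, f (s y) ^ 2 = (m : ℤ) ^ 2 := by
      rw [← hT]
      refine Finset.sum_congr rfl fun y hy => ?_
      rw [heq (s y) (hs1 y hy), hs2 y hy]
    rw [h4] at h1
    have h5 : 0 < f x ^ 2 := by positivity
    omega

/-- If `F = E_t / n1` is, up to translation, fixed by `t`, then `F` is `m` times a group
element. -/
theorem nonneg_of_fixed {v : ℕ} [NeZero v] {D : Finset (ZMod v)} {l : ℤ} (hD : IsDS D l)
    {m n1 : ℕ} (hm : 0 < m) (hn1 : 0 < n1) (hn : (D.card : ℤ) - l = m * n1)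
    (hcop : Nat.Coprime m v) (t : (ZMod v)ˣ) {F : ZMod v → ℤ}
    (hF : ∀ g, E D l t g = n1 * F g) (c : ZMod v) (hc : ∀ y, F (t * y + c) = F (y + c)) :
    ∀ x, 0 ≤ F x := by
  classical
  obtain ⟨O, _, _, z, hch, hz, hadj, hgal, hdvd⟩ := exists_cyclotomic v
  let ψ : AddChar (ZMod v) O := AddChar.zmodChar v hz.pow_eq_one
  have hψ : ψ.IsPrimitive := AddChar.zmodChar_primitive_of_primitive_root v hz
  have hψz : ∀ x : ZMod v, ψ x = z ^ x.val := fun x => AddChar.zmodChar_apply hz.pow_eq_one x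
  have hn10 : (n1 : O) ≠ 0 := by exact_mod_cast hn1.ne'
  have hEF : ∀ a, ft ψ (E D l t) a = n1 * ft ψ F a := by
    intro a
    unfold ft
    rw [Finset.mul_sum]
    refine Finset.sum_congr rfl fun g _ => ?_
    rw [hF]
    push_cast
    ring
  let F0 : ZMod v → ℤ := fun y => F (y + c)
  have hF0 : ∀ a, ft ψ F a = ψ (a * c) * ft ψ F0 a := by
    intro a
    unfold ft
    rw [Finset.mul_sum]
    symm
    refine Fintype.sum_equiv (Equiv.addRight c) _ _ fun y => ?_
    show ψ (a * c) * ((F (y + c) : O) * ψ (a * y)) = (F (y + c) : O) * ψ (a * (y + c))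
    rw [mul_add, AddChar.map_add_eq_mul]
    ring
  have htw : ∀ a, ft ψ F0 (a * t) = ft ψ F0 a := by
    intro a
    unfold ft
    refine Fintype.sum_equiv (Units.mulLeft t) _ _ fun y => ?_
    show (F (y + c) : O) * ψ (a * t * y) = (F (t * y + c) : O) * ψ (a * (t * y))
    rw [hc, mul_assoc]
  have htw' : ∀ (a : ZMod v) (i : ℕ), ft ψ F0 (a * (t : ZMod v) ^ i) = ft ψ F0 a := by
    intro a i
    induction i with
    | zero => rw [pow_zero, mul_one]
    | succ i ih => rw [pow_succ, ← mul_assoc, htw, ih]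
  set N : ℕ := orderOf t with hN
  have hNpos : 0 < N := orderOf_pos t
  have htN : (t : ZMod v) ^ N = 1 := by
    have h1 : ((t ^ N : (ZMod v)ˣ) : ZMod v) = ((1 : (ZMod v)ˣ) : ZMod v) := by
      rw [hN, pow_orderOf_eq_one]
    rwa [Units.val_pow_eq_pow_val, Units.val_one] at h1
  have hne : ∀ a : ZMod v, a ≠ 0 → ∀ i : ℕ, a * (t : ZMod v) ^ i ≠ 0 := by
    intro a ha i h
    apply ha
    have h1 := congrArg (fun x => x * (((t ^ i)⁻¹ : (ZMod v)ˣ) : ZMod v)) h
    simp only [zero_mul] at h1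
    rw [mul_assoc, ← Units.val_pow_eq_pow_val, Units.mul_inv, mul_one] at h1
    exact h1
  have hnO : ((((D.card : ℤ) - l : ℤ)) : O) ≠ 0 := by
    rw [hn]
    have : ((m * n1 : ℕ) : O) ≠ 0 := by exact_mod_cast (Nat.mul_pos hm hn1).ne'
    push_cast at this ⊢
    exact this
  have hSS : ∀ a : ZMod v, a ≠ 0 → S ψ D a * S ψ D (-a) = (((D.card : ℤ) - l : ℤ) : O) := by
    intro a ha
    rw [S_mul hψ hD, if_neg ha, mul_zero, add_zero]
  have hprod : ∀ a : ZMod v, a ≠ 0 →
      ∏ i ∈ Finset.range N, ft ψ (E D l t) (a * (t : ZMod v) ^ i) =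
        (((D.card : ℤ) - l : ℤ) : O) ^ N := by
    intro a ha
    have h1 : ∀ i ∈ Finset.range N, ft ψ (E D l t) (a * (t : ZMod v) ^ i) =
        S ψ D (a * (t : ZMod v) ^ (i + 1)) * S ψ D (-(a * (t : ZMod v) ^ i)) := by
      intro i _
      rw [ft_E hψ hD, if_neg (hne a ha i), pow_succ, mul_assoc]
    rw [Finset.prod_congr rfl h1, Finset.prod_mul_distrib]
    have h2 : ∏ i ∈ Finset.range N, S ψ D (a * (t : ZMod v) ^ (i + 1)) =
        ∏ i ∈ Finset.range N, S ψ D (a * (t : ZMod v) ^ i) := by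
      have h3 := Finset.prod_range_succ (fun i => S ψ D (a * (t : ZMod v) ^ i)) N
      have h4 := Finset.prod_range_succ' (fun i => S ψ D (a * (t : ZMod v) ^ i)) N
      rw [h3, htN, pow_zero] at h4
      have h5 : S ψ D (a * 1) ≠ 0 := by
        rw [mul_one]
        intro h6
        have := hSS a ha
        rw [h6, zero_mul] at this
        exact hnO this.symm
      exact (mul_right_cancel₀ h5 h4).symm
    rw [h2, ← Finset.prod_mul_distrib, Finset.prod_congr rfl fun i _ => hSS _ (hne a ha i),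
      Finset.prod_const, Finset.card_range]
  have hmdvd : ∀ a : ZMod v, (m : O) ∣ ft ψ F0 a := by
    intro a
    by_cases ha : a = 0
    · subst ha
      have h1 : ft ψ F0 0 = (m : O) := by
        have h2 := sum_quot hD hn1 hn t hF
        have h3 : ∑ y, F0 y = m := by
          rw [← h2]
          exact Fintype.sum_equiv (Equiv.addRight c) _ _ fun y => rfl
        unfold ft
        have h4 : ((∑ y, F0 y : ℤ) : O) = ((m : ℤ) : O) := by rw [h3]
        push_cast at h4
        rw [← h4]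
        refine Finset.sum_congr rfl fun y _ => ?_
        rw [zero_mul, AddChar.map_zero_eq_one, mul_one]
      rw [h1]
    · have h1 := hprod a ha
      have h2 : ∀ i ∈ Finset.range N, ft ψ (E D l t) (a * (t : ZMod v) ^ i) =
          (n1 : O) * (ψ (a * (t : ZMod v) ^ i * c) * ft ψ F0 a) := by
        intro i _
        rw [hEF, hF0, htw']
      rw [Finset.prod_congr rfl h2, Finset.prod_mul_distrib, Finset.prod_mul_distrib,
        Finset.prod_const, Finset.prod_const, Finset.card_range, hn] at h1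
      push_cast at h1
      rw [mul_pow, mul_comm ((m : O) ^ N)] at h1
      have h3 := mul_left_cancel₀ (pow_ne_zero N hn10) h1
      have h4 : (m : O) ^ N ∣ ft ψ F0 a ^ N := by
        refine ⟨∏ i ∈ Finset.range N, ψ (-(a * (t : ZMod v) ^ i * c)), ?_⟩
        rw [← h3, mul_right_comm, ← Finset.prod_mul_distrib]
        have h5 : ∀ i ∈ Finset.range N, ψ (a * (t : ZMod v) ^ i * c) *
            ψ (-(a * (t : ZMod v) ^ i * c)) = 1 := by
          intro i _
          rw [← AddChar.map_add_eq_mul, add_neg_cancel, AddChar.map_zero_eq_one]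
        rw [Finset.prod_congr rfl h5, Finset.prod_const_one, one_mul]
      exact (IsIntegrallyClosed.pow_dvd_pow_iff hNpos.ne').1 h4
  have hm0 : ∀ x, (m : ℤ) ∣ F0 x := by
    intro x
    have h1 : (m : O) ∣ (v : O) * (F0 x : O) := by
      rw [← ft_inv hψ]
      exact Finset.dvd_sum fun a _ => (hmdvd a).mul_right _
    have h2 : (m : ℤ) ∣ (v : ℤ) * F0 x := by
      apply hdvd
      push_cast
      exact h1
    exact (Nat.isCoprime_iff_coprime.2 hcop).dvd_of_dvd_mul_left h2
  choose h hh using hm0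
  have hsum := sum_quot hD hn1 hn t hF
  have hsq := sum_sq fun a => norm_quot hD hn1 hn t hF a
  have hsum0 : ∑ y, F0 y = m := by
    rw [← hsum]
    exact Fintype.sum_equiv (Equiv.addRight c) _ _ fun y => rfl
  have hsq0 : ∑ y, F0 y ^ 2 = (m : ℤ) ^ 2 := by
    rw [← hsq]
    exact Fintype.sum_equiv (Equiv.addRight c) _ _ fun y => rfl
  have hmz : (m : ℤ) ≠ 0 := by exact_mod_cast hm.ne'
  have hs1 : ∑ y, h y = 1 := by
    simp_rw [hh] at hsum0
    rw [← Finset.mul_sum] at hsum0
    exact mul_left_cancel₀ hmz (by rw [hsum0, mul_one])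
  have hs2 : ∑ y, h y ^ 2 = 1 := by
    simp_rw [hh, mul_pow] at hsq0
    rw [← Finset.mul_sum] at hsq0
    exact mul_left_cancel₀ (pow_ne_zero 2 hmz) (by rw [hsq0, mul_one])
  have hs3 : ∑ y, (h y ^ 2 - h y) = 0 := by
    rw [Finset.sum_sub_distrib, hs1, hs2, sub_self]
  have hge : ∀ z : ℤ, 0 ≤ z ^ 2 - z := by
    intro z
    rcases le_or_gt z 0 with hz0 | hz0
    · nlinarith [sq_nonneg z]
    · nlinarith
  intro x
  have h1 := (Finset.sum_eq_zero_iff_of_nonneg (fun y _ => hge (h y))).1 hs3 (x - c)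
    (Finset.mem_univ _)
  have h2 : 0 ≤ h (x - c) := by nlinarith [sq_nonneg (h (x - c))]
  have h3 : F x = F0 (x - c) := by
    show F x = F (x - c + c)
    rw [sub_add_cancel]
  rw [h3, hh]
  positivity

/-- **Multiplier theorem with a linear order condition.** -/
theorem lin_mult {v : ℕ} [NeZero v] {D : Finset (ZMod v)} {l : ℤ} (hD : IsDS D l)
    {m n1 : ℕ} (hm : 0 < m) (hn1 : 0 < n1) (hn : (D.card : ℤ) - l = m * n1)
    (hcop : Nat.Coprime (m * n1) v) {w : ℕ} (hw : w ∣ v)
    (hord : ∀ q : ℕ, q.Prime → q ∣ v / w → ∃ u : (ZMod v)ˣ,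
      (∀ p : ℕ, p.Prime → p ∣ m → ∃ j : ℕ, (u : ZMod v) = (p : ZMod v) ^ j) ∧
      (u : ZMod v).val ≡ 1 [MOD w] ∧
      ∀ i : ℕ, 0 < i → i < 2 * m → ¬ (u : ZMod v).val ^ i ≡ 1 [MOD q])
    (t : (ZMod v)ˣ)
    (htp : ∀ p : ℕ, p.Prime → p ∣ n1 → ∃ j : ℕ, (t : ZMod v) = (p : ZMod v) ^ j)
    (htw : (t : ZMod v).val ≡ 1 [MOD w]) :
    ∃ s : ZMod v, D.image (fun x => (t : ZMod v) * x) = D.image (fun x => x + s) := by
  have hcm : Nat.Coprime m v := Nat.Coprime.coprime_mul_right hcop
  have hcn : Nat.Coprime n1 v := Nat.Coprime.coprime_mul_left hcop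
  have hF := div_all hD ⟨m, by rw [hn]; ring⟩ hcn t htp
  choose F hF using hF
  have hAC : AC F ((m : ℤ) ^ 2) := by
    refine AC.of_norm fun a => ?_
    rw [norm_quot hD hn1 hn t hF a]
    push_cast
    rfl
  have hs := sum_quot hD hn1 hn t hF
  obtain ⟨c, hc⟩ := normalise hm hAC hs hcm
  let F0 : ZMod v → ℤ := fun y => F (y + c)
  have hAC0 : AC F0 ((m : ℤ) ^ 2) := by
    intro g
    rw [← hAC g]
    refine Fintype.sum_equiv (Equiv.addRight c) _ _ fun y => ?_
    show F (y + g + c) * F (y + c) = F (y + c + g) * F (y + c)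
    rw [add_right_comm]
  have hs0 : ∑ y, F0 y = m := by
    rw [← hs]
    exact Fintype.sum_equiv (Equiv.addRight c) _ _ fun y => rfl
  let U : Set ℕ := {u : ℕ | ∃ u' : (ZMod v)ˣ,
    (∀ p : ℕ, p.Prime → p ∣ m → ∃ j : ℕ, (u' : ZMod v) = (p : ZMod v) ^ j) ∧
      u = (u' : ZMod v).val}
  have hv0 : v ≠ 0 := NeZero.ne v
  have hw0 : w ≠ 0 := by
    rintro rfl
    exact hv0 (Nat.eq_zero_of_zero_dvd hw)
  have hsupp := supp_main hw0 hm U (v / w) v inferInstance (Nat.div_mul_cancel hw).symm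
    (by
      rintro u ⟨u', _, rfl⟩
      exact ZMod.val_coe_unit_coprime u')
    (by
      intro q hq hqd
      obtain ⟨u, h1, h2, h3⟩ := hord q hq hqd
      exact ⟨_, ⟨u, h1, rfl⟩, h2, h3⟩)
    F0 hAC0 hs0
    (by
      rintro u ⟨u', hu', rfl⟩ x
      rw [ZMod.natCast_zmod_val]
      exact hc u' hu' x)
  have htx : ∀ x : ZMod v, (w : ZMod v) * x = 0 → (t : ZMod v) * x = x := by
    intro x hx
    have h1 : (w : ℤ) ∣ ((t : ZMod v).val : ℤ) - 1 := by
      have := Nat.modEq_iff_dvd.1 htw.symm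
      push_cast at this
      exact this
    obtain ⟨e, he⟩ := h1
    have h2 : (t : ZMod v) = 1 + (w : ZMod v) * (e : ZMod v) := by
      have h3 : ((((t : ZMod v).val : ℤ)) : ZMod v) = ((1 + (w : ℤ) * e : ℤ) : ZMod v) := by
        congr 1
        linarith
      push_cast at h3
      rwa [ZMod.natCast_zmod_val] at h3
    rw [h2, add_mul, one_mul, mul_right_comm, hx, zero_mul, add_zero]
  have hfix : ∀ y, F (t * y + c) = F (y + c) := by
    intro y
    show F0 (t * y) = F0 y
    by_cases hy : (w : ZMod v) * y = 0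
    · rw [htx y hy]
    · have h1 : F0 y = 0 := by
        by_contra h
        exact hy (hsupp y h)
      have h2 : F0 (t * y) = 0 := by
        by_contra h
        have h3 := hsupp _ h
        rw [mul_left_comm] at h3
        exact hy (by simpa using h3)
      rw [h1, h2]
  have hpos := nonneg_of_fixed hD hm hn1 hn hcm t hF c hfix
  refine mult_of_pos hD (by rw [hn]; positivity) t fun x => ?_
  rw [hF]
  exact mul_nonneg (by positivity) (hpos x)

end Pool.Agent.H10.MU
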