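import Pool.Agent.H10.MU.Gen
import Pool.Agent.H10.MU.Cl

/-! # Supports of invariant `F` with `F F^* = m ^ 2` (MP_3e22f2_co) -/

set_option autoImplicit false

namespace Pool.Agent.H10.MU

open Finset Pool.Agent.H58.Mult

/-- Push forward along `ZMod N → ZMod M`. -/
def pf {N M : ℕ} [NeZero N] (h : M ∣ N) (f : ZMod N → ℤ) (y : ZMod M) : ℤ :=
  ∑ x, if ZMod.castHom h (ZMod M) x = y then f x else 0

section pf

variable {N M : ℕ} [NeZero N] [NeZero M] (h : M ∣ N) {f : ZMod N → ℤ}

theorem pf_sum (f : ZMod N → ℤ) : ∑ y, pf h f y = ∑ x, f x := by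
  unfold pf
  rw [Finset.sum_comm]
  exact Finset.sum_congr rfl fun x _ => by
    rw [Finset.sum_ite_eq Finset.univ, if_pos (Finset.mem_univ _)]

theorem pf_AC {K : ℤ} (hf : AC f K) : AC (pf h f) K := by
  intro g
  have h1 : ∀ y : ZMod M, pf h f (y + g) * pf h f y =
      ∑ x', (if ZMod.castHom h (ZMod M) x' = y then
        (∑ x, (if ZMod.castHom h (ZMod M) x = y + g then f x else 0)) * f x' else 0) := by
    intro y
    unfold pf
    rw [Finset.mul_sum]
    refine Finset.sum_congr rfl fun x' _ => ?_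
    split_ifs <;> simp
  simp_rw [h1]
  rw [Finset.sum_comm]
  have h2 : ∀ x' : ZMod N, (∑ y : ZMod M, (if ZMod.castHom h (ZMod M) x' = y then
      (∑ x, (if ZMod.castHom h (ZMod M) x = y + g then f x else 0)) * f x' else 0)) =
      ∑ k : ZMod N, (if ZMod.castHom h (ZMod M) k = g then f (x' + k) * f x' else 0) := by
    intro x'
    rw [Finset.sum_ite_eq Finset.univ, if_pos (Finset.mem_univ _), Finset.sum_mul]
    symm
    refine Fintype.sum_equiv (Equiv.addLeft x') _ _ fun k => ?_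
    show (if ZMod.castHom h (ZMod M) k = g then f (x' + k) * f x' else 0) =
      (if ZMod.castHom h (ZMod M) (x' + k) = ZMod.castHom h (ZMod M) x' + g then f (x' + k) else 0)
        * f x'
    rw [map_add]
    by_cases hk : ZMod.castHom h (ZMod M) k = g
    · rw [if_pos hk, if_pos (by rw [hk])]
    · rw [if_neg hk, if_neg (fun h3 => hk (add_left_cancel h3)), zero_mul]
  simp_rw [h2]
  rw [Finset.sum_comm]
  have h3 : ∀ k : ZMod N, (∑ x', (if ZMod.castHom h (ZMod M) k = g then f (x' + k) * f x' else 0)) =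
      if k = 0 then (if g = 0 then K else 0) else 0 := by
    intro k
    by_cases hk : k = 0
    · subst hk
      rw [if_pos rfl, map_zero]
      by_cases hg : g = 0
      · subst hg
        simp only [if_true]
        have := hf 0
        rwa [if_pos rfl] at this
      · rw [if_neg hg]
        exact Finset.sum_eq_zero fun x _ => if_neg fun h4 => hg h4.symm
    · rw [if_neg hk]
      by_cases hg : ZMod.castHom h (ZMod M) k = g
      · simp only [hg, if_true]
        have := hf k
        rwa [if_neg hk] at this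
      · simp only [hg, if_false, Finset.sum_const_zero]
  simp_rw [h3]
  rw [Finset.sum_ite_eq' Finset.univ]
  simp

omit [NeZero M] in
theorem pf_inv {u : ℕ} (hu : Nat.Coprime u N) (hf : ∀ x, f ((u : ZMod N) * x) = f x)
    (y : ZMod M) : pf h f ((u : ZMod M) * y) = pf h f y := by
  unfold pf
  let U : (ZMod N)ˣ := ZMod.unitOfCoprime u hu
  have hU : (U : ZMod N) = u := ZMod.coe_unitOfCoprime u hu
  have huM : Nat.Coprime u M := Nat.Coprime.coprime_dvd_right h hu
  let U' : (ZMod M)ˣ := ZMod.unitOfCoprime u huM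
  have hU' : (U' : ZMod M) = u := ZMod.coe_unitOfCoprime u huM
  symm
  refine Fintype.sum_equiv (Units.mulLeft U) _ _ fun x => ?_
  show (if ZMod.castHom h (ZMod M) x = y then f x else 0) =
    (if ZMod.castHom h (ZMod M) ((U : ZMod N) * x) = (u : ZMod M) * y then f (U * x) else 0)
  rw [map_mul, hU, map_natCast, hf]
  by_cases hx : ZMod.castHom h (ZMod M) x = y
  · rw [if_pos hx, if_pos (by rw [hx])]
  · rw [if_neg hx, if_neg]
    intro h3
    apply hx
    rw [← hU'] at h3
    exact U'.isUnit.mul_left_cancel h3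

end pf

/-- The fibre of `ZMod (l * M) → ZMod M`. -/
theorem fibre_sum {l M : ℕ} [NeZero l] [NeZero M] [NeZero (l * M)] (h : M ∣ l * M)
    (f : ZMod (l * M) → ℤ) (x0 : ZMod (l * M)) :
    pf h f (ZMod.castHom h (ZMod M) x0) =
      ∑ j : ZMod l, f (x0 + ((M * j.val : ℕ) : ZMod (l * M))) := by
  classical
  unfold pf
  rw [← Finset.sum_filter]
  symm
  have hM : 0 < M := Nat.pos_of_ne_zero (NeZero.ne M)
  have hlt : ∀ j : ZMod l, M * j.val < l * M := by
    intro j
    rw [mul_comm l M]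
    exact Nat.mul_lt_mul_of_pos_left (ZMod.val_lt j) hM
  refine Finset.sum_bij (fun j _ => x0 + ((M * j.val : ℕ) : ZMod (l * M))) ?_ ?_ ?_ ?_
  · intro j _
    rw [Finset.mem_filter]
    refine ⟨Finset.mem_univ _, ?_⟩
    rw [map_add, map_natCast]
    push_cast
    simp
  · intro j _ j' _ hjj
    have h1 := add_left_cancel hjj
    have h2 := congrArg ZMod.val h1
    rw [ZMod.val_natCast, ZMod.val_natCast, Nat.mod_eq_of_lt (hlt j), Nat.mod_eq_of_lt (hlt j')] at h2
    exact ZMod.val_injective l (Nat.eq_of_mul_eq_mul_left hM h2)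
  · intro x hx
    rw [Finset.mem_filter] at hx
    have h1 : ZMod.castHom h (ZMod M) (x - x0) = 0 := by rw [map_sub, hx.2, sub_self]
    have h2 : M ∣ (x - x0).val := by
      rw [← ZMod.natCast_eq_zero_iff]
      have h3 : ((x - x0 : ZMod (l * M)).val : ZMod M) =
          ZMod.castHom h (ZMod M) (((x - x0).val : ℕ) : ZMod (l * M)) := by
        rw [map_natCast]
      rw [h3, ZMod.natCast_zmod_val, h1]
    obtain ⟨c, hc⟩ := h2
    have hcl : c < l := by
      have h4 := ZMod.val_lt (x - x0)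
      rw [hc, mul_comm l M] at h4
      exact lt_of_mul_lt_mul_left h4 (Nat.zero_le _)
    refine ⟨(c : ZMod l), Finset.mem_univ _, ?_⟩
    rw [ZMod.val_natCast, Nat.mod_eq_of_lt hcl, ← hc, ZMod.natCast_zmod_val]
    ring
  · intro j _
    rfl

/-- The divisibility on fibres. -/
theorem fibre_dvd {l M : ℕ} (hl : l.Prime) [NeZero M] [NeZero (l * M)] (h : M ∣ l * M)
    {f : ZMod (l * M) → ℤ} {u : ℕ} (hu : ∀ x, f ((u : ZMod (l * M)) * x) = f x)
    (hul : Nat.Coprime u l) {x0 : ZMod (l * M)} (hx0 : (u : ZMod (l * M)) * x0 = x0) :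
    ((orderOf (ZMod.unitOfCoprime u hul) : ℕ) : ℤ) ∣
      pf h f (ZMod.castHom h (ZMod M) x0) - f x0 := by
  classical
  have hfact : Fact l.Prime := ⟨hl⟩
  have hne : NeZero l := ⟨hl.ne_zero⟩
  rw [fibre_sum h f x0]
  let F' : ZMod l → ℤ := fun j => f (x0 + ((M * j.val : ℕ) : ZMod (l * M)))
  have hF0 : F' 0 = f x0 := by
    show f (x0 + ((M * (0 : ZMod l).val : ℕ) : ZMod (l * M))) = f x0
    simp
  have hF' : ∀ j, F' ((u : ZMod l) * j) = F' j := by
    intro j
    show f (x0 + ((M * ((u : ZMod l) * j).val : ℕ) : ZMod (l * M))) =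
      f (x0 + ((M * j.val : ℕ) : ZMod (l * M)))
    rw [← hu (x0 + ((M * j.val : ℕ) : ZMod (l * M))), mul_add, hx0]
    congr 2
    have h1 : (M * ((u : ZMod l) * j).val : ℕ) ≡ u * (M * j.val) [MOD l * M] := by
      have h2 : ((u : ZMod l) * j).val ≡ u * j.val [MOD l] := by
        rw [← ZMod.natCast_eq_natCast_iff]
        push_cast
        rw [ZMod.natCast_zmod_val, ZMod.natCast_zmod_val]
      have h3 := h2.mul_left' M
      rw [mul_comm l M]
      have h4 : M * (u * j.val) = u * (M * j.val) := by ring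
      rwa [h4] at h3
    have h5 := (ZMod.natCast_eq_natCast_iff _ _ _).2 h1
    rw [h5]
    push_cast
    ring
  have hunits : ∑ y, F' y = F' 0 + ∑ x : (ZMod l)ˣ, F' x := by
    rw [← Finset.add_sum_erase Finset.univ F' (Finset.mem_univ 0)]
    congr 1
    refine (Finset.sum_bij (fun (x : (ZMod l)ˣ) _ => (x : ZMod l)) ?_ ?_ ?_ ?_).symm
    · intro x _
      exact Finset.mem_erase.2 ⟨x.ne_zero, Finset.mem_univ _⟩
    · intro x _ y _ h
      exact Units.ext h
    · intro y hy
      exact ⟨Units.mk0 y (Finset.mem_erase.1 hy).1, Finset.mem_univ _, rfl⟩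
    · intro x _
      rfl
  have hdvd : ((orderOf (ZMod.unitOfCoprime u hul) : ℕ) : ℤ) ∣ ∑ x : (ZMod l)ˣ, F' x := by
    refine dvd_sum_units (ZMod.unitOfCoprime u hul) (fun x : (ZMod l)ˣ => F' (x : ZMod l))
      fun x => ?_
    show F' ((x * ZMod.unitOfCoprime u hul : (ZMod l)ˣ) : ZMod l) = F' x
    rw [Units.val_mul, mul_comm, ZMod.coe_unitOfCoprime, hF']
  have : ∑ j : ZMod l, f (x0 + ((M * j.val : ℕ) : ZMod (l * M))) = F' 0 + ∑ x : (ZMod l)ˣ, F' x :=
    hunits
  rw [this, hF0, add_sub_cancel_left]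
  exact hdvd

/-- A function with sum `m` and sum of squares `m ^ 2` does not take the value `-m`. -/
theorem ne_neg {N : ℕ} [NeZero N] {m : ℕ} (hm : 0 < m) {f : ZMod N → ℤ}
    (hs : ∑ y, f y = m) (hq : ∑ y, f y ^ 2 = (m : ℤ) ^ 2) (x : ZMod N) :
    -(m : ℤ) < f x ∧ f x ≤ m := by
  classical
  have h1 : f x ^ 2 ≤ (m : ℤ) ^ 2 := by
    rw [← hq]
    exact Finset.single_le_sum (f := fun g => f g ^ 2) (fun _ _ => sq_nonneg _)
      (Finset.mem_univ x)
  have h2 := abs_le.1 (abs_le_of_sq_le_sq h1 (by positivity))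
  refine ⟨lt_of_le_of_ne h2.1 fun h3 => ?_, h2.2⟩
  have h4 : ∑ y ∈ Finset.univ.erase x, f y ^ 2 = 0 := by
    have := Finset.add_sum_erase Finset.univ (fun y => f y ^ 2) (Finset.mem_univ x)
    rw [hq, ← h3] at this
    linarith [neg_sq (m : ℤ)]
  have h5 : ∑ y ∈ Finset.univ.erase x, f y = 0 := by
    refine Finset.sum_eq_zero fun y hy => ?_
    have := (Finset.sum_eq_zero_iff_of_nonneg (fun y _ => sq_nonneg _)).1 h4 y hy
    exact pow_eq_zero_iff (two_ne_zero) |>.1 this
  have h6 := Finset.add_sum_erase Finset.univ f (Finset.mem_univ x)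
  rw [h5, hs, ← h3] at h6
  omega

end Pool.Agent.H10.MU
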