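import Pool.Agent.H10.MU.Supp
import Pool.Agent.H58.Mult.Event

/-! # Powers of numerical candidates: a divisor `w ≤ 8 ^ (m ^ 2)` of `v` (MP_3e22f2_co) -/

set_option autoImplicit false

namespace Pool.Agent.H10.MU

open Finset Pool.Agent.H58.Mult

variable {v : ℕ} [NeZero v] {D : Finset (ZMod v)} {l : ℤ}

/-- If all characters of `E_t` are, up to roots of unity, fixed by `t`, then `t` is a
multiplier. -/
theorem mult_of_twist (hD : IsDS D l) (hn0 : 0 < (D.card : ℤ) - l) {n : ℕ}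
    (hn : (D.card : ℤ) - l = n) (hcop : Nat.Coprime n v) (t : (ZMod v)ˣ)
    (H : ∀ (O : Type) [CommRing O] [IsDomain O] [CharZero O] (ψ : AddChar (ZMod v) O),
      ψ.IsPrimitive → ∀ a, ∃ y, ft ψ (E D l t) (a * t) = ψ y * ft ψ (E D l t) a) :
    ∃ s : ZMod v, D.image (fun x => (t : ZMod v) * x) = D.image (fun x => x + s) := by
  classical
  obtain ⟨O, _, _, z, hch, hz, hadj, hgal, hdvd⟩ := exists_cyclotomic v
  let ψ : AddChar (ZMod v) O := AddChar.zmodChar v hz.pow_eq_one
  have hψ : ψ.IsPrimitive := AddChar.zmodChar_primitive_of_primitive_root v hz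
  have htw := H O ψ hψ
  have htw' : ∀ (a : ZMod v) (i : ℕ), ∃ y, ft ψ (E D l t) (a * (t : ZMod v) ^ i) =
      ψ y * ft ψ (E D l t) a := by
    intro a i
    induction i with
    | zero => exact ⟨0, by rw [pow_zero, mul_one, AddChar.map_zero_eq_one, one_mul]⟩
    | succ i ih =>
      obtain ⟨y, hy⟩ := ih
      obtain ⟨y', hy'⟩ := htw (a * (t : ZMod v) ^ i)
      refine ⟨y' + y, ?_⟩
      rw [pow_succ, ← mul_assoc, hy', hy, AddChar.map_add_eq_mul, mul_assoc]
  set N : ℕ := orderOf t with hN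
  have hNpos : 0 < N := orderOf_pos t
  have htN : (t : ZMod v) ^ N = 1 := by
    have h1 : ((t ^ N : (ZMod v)ˣ) : ZMod v) = ((1 : (ZMod v)ˣ) : ZMod v) := by
      rw [hN, pow_orderOf_eq_one]
    rwa [Units.val_pow_eq_pow_val, Units.val_one] at h1
  have hne : ∀ a : ZMod v, a ≠ 0 → ∀ i : ℕ, a * (t : ZMod v) ^ i ≠ 0 := by
    intro a ha i h
    apply ha
    have h1 := congrArg (fun x => x * (((t ^ i)⁻¹ : (ZMod v)ˣ) : ZMod v)) h
    simp only [zero_mul] at h1
    rw [mul_assoc, ← Units.val_pow_eq_pow_val, Units.mul_inv, mul_one] at h1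
    exact h1
  have hnpos : 0 < n := by omega
  have hnO : (n : O) ≠ 0 := by exact_mod_cast hnpos.ne'
  have hSS : ∀ a : ZMod v, a ≠ 0 → S ψ D a * S ψ D (-a) = (n : O) := by
    intro a ha
    rw [S_mul hψ hD, if_neg ha, mul_zero, add_zero, hn]
    push_cast
    rfl
  have hprod : ∀ a : ZMod v, a ≠ 0 →
      ∏ i ∈ Finset.range N, ft ψ (E D l t) (a * (t : ZMod v) ^ i) = (n : O) ^ N := by
    intro a ha
    have h1 : ∀ i ∈ Finset.range N, ft ψ (E D l t) (a * (t : ZMod v) ^ i) =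
        S ψ D (a * (t : ZMod v) ^ (i + 1)) * S ψ D (-(a * (t : ZMod v) ^ i)) := by
      intro i _
      rw [ft_E hψ hD, if_neg (hne a ha i), pow_succ, mul_assoc]
    rw [Finset.prod_congr rfl h1, Finset.prod_mul_distrib]
    have h2 : ∏ i ∈ Finset.range N, S ψ D (a * (t : ZMod v) ^ (i + 1)) =
        ∏ i ∈ Finset.range N, S ψ D (a * (t : ZMod v) ^ i) := by
      have h3 := Finset.prod_range_succ (fun i => S ψ D (a * (t : ZMod v) ^ i)) N
      have h4 := Finset.prod_range_succ' (fun i => S ψ D (a * (t : ZMod v) ^ i)) N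
      rw [h3, htN, pow_zero] at h4
      have h5 : S ψ D (a * 1) ≠ 0 := by
        rw [mul_one]
        intro h6
        have := hSS a ha
        rw [h6, zero_mul] at this
        exact hnO this.symm
      exact (mul_right_cancel₀ h5 h4).symm
    rw [h2, ← Finset.prod_mul_distrib, Finset.prod_congr rfl fun i _ => hSS _ (hne a ha i),
      Finset.prod_const, Finset.card_range]
  have hndvd : ∀ a : ZMod v, (n : O) ∣ ft ψ (E D l t) a := by
    intro a
    by_cases ha : a = 0
    · subst ha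
      rw [ft_E hψ hD, if_pos rfl, hn]
      push_cast
      exact dvd_rfl
    · have h1 := hprod a ha
      choose y hy using fun i => htw' a i
      rw [Finset.prod_congr rfl fun i _ => hy i, Finset.prod_mul_distrib, Finset.prod_const,
        Finset.card_range] at h1
      have h4 : (n : O) ^ N ∣ ft ψ (E D l t) a ^ N := by
        refine ⟨∏ i ∈ Finset.range N, ψ (-y i), ?_⟩
        rw [← h1, mul_right_comm, ← Finset.prod_mul_distrib]
        have h5 : ∀ i ∈ Finset.range N, ψ (y i) * ψ (-y i) = 1 := by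
          intro i _
          rw [← AddChar.map_add_eq_mul, add_neg_cancel, AddChar.map_zero_eq_one]
        rw [Finset.prod_congr rfl h5, Finset.prod_const_one, one_mul]
      exact (IsIntegrallyClosed.pow_dvd_pow_iff hNpos.ne').1 h4
  have hn1 : ∀ x, (n : ℤ) ∣ E D l t x := by
    intro x
    have h1 : (n : O) ∣ (v : O) * (E D l t x : O) := by
      rw [← ft_inv hψ]
      exact Finset.dvd_sum fun a _ => (hndvd a).mul_right _
    have h2 : (n : ℤ) ∣ (v : ℤ) * E D l t x := by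
      apply hdvd
      push_cast
      exact h1
    exact (Nat.isCoprime_iff_coprime.2 hcop).dvd_of_dvd_mul_left h2
  choose h hh using hn1
  have hsum := sum_E hD (t : ZMod v)
  have hsq := sum_sq (f := E D l t) (M := (D.card : ℤ) - l) fun a => norm_ft_E hD t a
  have hnz : (n : ℤ) ≠ 0 := by exact_mod_cast hnpos.ne'
  rw [hn] at hsum hsq
  have hs1 : ∑ y, h y = 1 := by
    simp_rw [hh] at hsum
    rw [← Finset.mul_sum] at hsum
    exact mul_left_cancel₀ hnz (by rw [hsum, mul_one])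
  have hs2 : ∑ y, h y ^ 2 = 1 := by
    simp_rw [hh, mul_pow] at hsq
    rw [← Finset.mul_sum] at hsq
    exact mul_left_cancel₀ (pow_ne_zero 2 hnz) (by rw [hsq, mul_one])
  have hs3 : ∑ y, (h y ^ 2 - h y) = 0 := by
    rw [Finset.sum_sub_distrib, hs1, hs2, sub_self]
  have hge : ∀ z : ℤ, 0 ≤ z ^ 2 - z := by
    intro z
    rcases le_or_gt z 0 with hz0 | hz0
    · nlinarith [sq_nonneg z]
    · nlinarith
  refine mult_of_pos hD hn0 t fun x => ?_
  have h1 := (Finset.sum_eq_zero_iff_of_nonneg (fun y _ => hge (h y))).1 hs3 x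
    (Finset.mem_univ _)
  have h2 : 0 ≤ h x := by nlinarith [sq_nonneg (h x)]
  rw [hh]
  positivity

theorem map_sum_char {O : Type*} [CommRing O] (ψ : AddChar (ZMod v) O) {ι : Type*}
    (s : Finset ι) (f : ι → ZMod v) : ψ (∑ j ∈ s, f j) = ∏ j ∈ s, ψ (f j) := by
  classical
  induction s using Finset.induction_on with
  | empty => rw [Finset.sum_empty, Finset.prod_empty, AddChar.map_zero_eq_one]
  | insert a s ha ih => rw [Finset.sum_insert ha, Finset.prod_insert ha, AddChar.map_add_eq_mul, ih]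

/-- The characters of `E_{t ^ i}` in terms of those of `E_t`. -/
theorem ft_E_pow {O : Type*} [CommRing O] [IsDomain O] {ψ : AddChar (ZMod v) O}
    (hψ : ψ.IsPrimitive) (hD : IsDS D l) (t : (ZMod v)ˣ) (a : ZMod v) (i : ℕ) :
    ft ψ (E D l ((t ^ (i + 1) : (ZMod v)ˣ) : ZMod v)) a * (((D.card : ℤ) - l : ℤ) : O) ^ i =
      ∏ j ∈ Finset.range (i + 1), ft ψ (E D l t) (a * (t : ZMod v) ^ j) := by
  by_cases ha : a = 0
  · subst ha
    have h1 : ∀ j ∈ Finset.range (i + 1), ft ψ (E D l t) (0 * (t : ZMod v) ^ j) =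
        (((D.card : ℤ) - l : ℤ) : O) := by
      intro j _
      rw [zero_mul, ft_E hψ hD, if_pos rfl]
    rw [Finset.prod_congr rfl h1, Finset.prod_const, Finset.card_range, ft_E hψ hD, if_pos rfl,
      pow_succ, mul_comm]
  · have hne : ∀ i : ℕ, a * (t : ZMod v) ^ i ≠ 0 := by
      intro i h
      apply ha
      have h1 := congrArg (fun x => x * (((t ^ i)⁻¹ : (ZMod v)ˣ) : ZMod v)) h
      simp only [zero_mul] at h1
      rw [mul_assoc, ← Units.val_pow_eq_pow_val, Units.mul_inv, mul_one] at h1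
      exact h1
    have hSS : ∀ a : ZMod v, a ≠ 0 → S ψ D a * S ψ D (-a) = (((D.card : ℤ) - l : ℤ) : O) := by
      intro a ha
      rw [S_mul hψ hD, if_neg ha, mul_zero, add_zero]
    induction i with
    | zero =>
      rw [pow_zero, mul_one, Finset.prod_range_one, pow_zero, mul_one, zero_add, pow_one]
    | succ i ih =>
      rw [Finset.prod_range_succ, ← ih, ft_E hψ hD, if_neg ha, ft_E hψ hD, if_neg ha, ft_E hψ hD,
        if_neg (hne (i + 1))]
      have h1 := hSS _ (hne (i + 1))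
      rw [Units.val_pow_eq_pow_val, Units.val_pow_eq_pow_val, pow_succ (t : ZMod v) (i + 1),
        ← mul_assoc a]
      linear_combination (-(S ψ D (a * (t : ZMod v) ^ (i + 1) * (t : ZMod v)) * S ψ D (-a) *
        (((D.card : ℤ) - l : ℤ) : O) ^ i)) * h1

/-- If `F = E_t / n1` is, up to translation, fixed by `t ^ i` then `t ^ i` is a multiplier. -/
theorem mult_of_pow_fixed (hD : IsDS D l) {m n1 : ℕ} (hm : 0 < m) (hn1 : 0 < n1)
    (hn : (D.card : ℤ) - l = m * n1) (hcop : Nat.Coprime (m * n1) v) (t : (ZMod v)ˣ)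
    {F : ZMod v → ℤ} (hF : ∀ g, E D l t g = n1 * F g) (i : ℕ) (c : ZMod v)
    (hc : ∀ y, F (((t ^ i : (ZMod v)ˣ) : ZMod v) * y + c) = F (y + c)) :
    ∃ s : ZMod v, D.image (fun x => ((t ^ i : (ZMod v)ˣ) : ZMod v) * x) =
      D.image (fun x => x + s) := by
  rcases i with _ | i
  · refine ⟨0, ?_⟩
    rw [pow_zero]
    simp
  have hn0 : 0 < (D.card : ℤ) - l := by
    rw [hn]
    positivity
  refine mult_of_twist hD hn0 (n := m * n1) (by rw [hn]; push_cast; ring) hcop _ ?_
  intro O _ _ _ ψ hψ a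
  set u : (ZMod v)ˣ := t ^ (i + 1) with hu
  have hnO : ((((D.card : ℤ) - l : ℤ)) : O) ≠ 0 := by
    rw [hn]
    have : ((m * n1 : ℕ) : O) ≠ 0 := by exact_mod_cast (Nat.mul_pos hm hn1).ne'
    push_cast at this ⊢
    exact this
  -- twist of `E_t` by `u`
  have h1 : ∀ b, ∃ y, ft ψ (E D l t) (b * u) = ψ y * ft ψ (E D l t) b := by
    intro b
    have hE : ∀ y, E D l t (u * y + c) = E D l t (y + c) := by
      intro y
      rw [hF, hF, hc]
    have e0 : ∀ b, ft ψ (E D l t) b = ψ (b * c) * ∑ y, (E D l t (y + c) : O) * ψ (b * y) := by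
      intro b
      unfold ft
      rw [Finset.mul_sum]
      symm
      refine Fintype.sum_equiv (Equiv.addRight c) _ _ fun y => ?_
      show ψ (b * c) * ((E D l t (y + c) : O) * ψ (b * y)) =
        (E D l t (y + c) : O) * ψ (b * (y + c))
      rw [mul_add, AddChar.map_add_eq_mul]
      ring
    have e1 : ∑ y, (E D l t (y + c) : O) * ψ (b * u * y) =
        ∑ y, (E D l t (y + c) : O) * ψ (b * y) := by
      refine Fintype.sum_equiv (Units.mulLeft u) _ _ fun y => ?_
      show (E D l t (y + c) : O) * ψ (b * u * y) = (E D l t (u * y + c) : O) * ψ (b * (u * y))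
      rw [hE, mul_assoc]
    refine ⟨b * u * c - b * c, ?_⟩
    rw [e0 (b * u), e1, e0 b, ← mul_assoc, ← AddChar.map_add_eq_mul]
    congr 2
    ring
  choose y hy using h1
  have h2 := ft_E_pow hψ hD t (a * u) i
  have h3 := ft_E_pow hψ hD t a i
  have h4 : ∀ j ∈ Finset.range (i + 1), ft ψ (E D l t) (a * u * (t : ZMod v) ^ j) =
      ψ (y (a * (t : ZMod v) ^ j)) * ft ψ (E D l t) (a * (t : ZMod v) ^ j) := by
    intro j _
    rw [← hy]
    congr 1
    ring
  rw [Finset.prod_congr rfl h4, Finset.prod_mul_distrib, ← h3] at h2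
  have h5 : ∏ j ∈ Finset.range (i + 1), ψ (y (a * (t : ZMod v) ^ j)) =
      ψ (∑ j ∈ Finset.range (i + 1), y (a * (t : ZMod v) ^ j)) := by
    rw [map_sum_char]
  rw [h5, ← hu, ← mul_assoc] at h2
  exact ⟨_, mul_right_cancel₀ (pow_ne_zero i hnO) h2⟩

/-- **Small divisor theorem.** -/
theorem small_div (hD : IsDS D l) {m n1 : ℕ} (hm : 0 < m) (hn1 : 0 < n1)
    (hn : (D.card : ℤ) - l = m * n1) (hcop : Nat.Coprime (m * n1) v) (t : (ZMod v)ˣ)
    (ht : ∀ p : ℕ, p.Prime → p ∣ n1 → ∃ j : ℕ, (t : ZMod v) = (p : ZMod v) ^ j) :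
    ∃ w : ℕ, w ∣ v ∧ w ≤ 8 ^ (m ^ 2) ∧ ∀ i : ℕ, ((t ^ i : (ZMod v)ˣ) : ZMod v).val ≡ 1 [MOD w] →
      ∃ s : ZMod v, D.image (fun x => ((t ^ i : (ZMod v)ˣ) : ZMod v) * x) =
        D.image (fun x => x + s) := by
  have hF := div_all hD ⟨m, by rw [hn]; ring⟩ (Nat.Coprime.coprime_mul_left hcop) t ht
  choose F hF using hF
  obtain ⟨q, hq1, hq2, hq⟩ := rect hm (Nat.Coprime.coprime_mul_right hcop)
    fun a => norm_quot hD hn1 hn t hF a
  have hsum := sum_quot hD hn1 hn t hF
  obtain ⟨x0, hx0⟩ : ∃ x, F x ≠ 0 := by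
    by_contra hcon
    push Not at hcon
    rw [Finset.sum_eq_zero fun x _ => hcon x] at hsum
    have : (0 : ℤ) < m := by exact_mod_cast hm
    omega
  refine ⟨Nat.gcd q v, Nat.gcd_dvd_right q v, (Nat.gcd_le_left v hq1).trans hq2, fun i hi => ?_⟩
  refine mult_of_pow_fixed hD hm hn1 hn hcop t hF i x0 fun y => ?_
  set u : (ZMod v)ˣ := t ^ i with hu
  by_cases hy : (q : ZMod v) * y = 0
  · have h1 : ((Nat.gcd q v : ℕ) : ZMod v) * y = 0 := by
      have h2 := Nat.gcd_eq_gcd_ab q v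
      have h3 : ((Nat.gcd q v : ℕ) : ZMod v) = (((Nat.gcd q v : ℕ) : ℤ) : ZMod v) := by
        push_cast
        rfl
      rw [h3, h2]
      push_cast
      rw [ZMod.natCast_self, zero_mul, add_zero, mul_right_comm, hy, zero_mul]
    have h2 : (u : ZMod v) * y = y := by
      have h3 : ((Nat.gcd q v : ℕ) : ℤ) ∣ ((u : ZMod v).val : ℤ) - 1 := by
        have := Nat.modEq_iff_dvd.1 hi.symm
        push_cast at this
        exact this
      obtain ⟨e, he⟩ := h3
      have h4 : (u : ZMod v) = 1 + ((Nat.gcd q v : ℕ) : ZMod v) * (e : ZMod v) := by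
        have h5 : ((((u : ZMod v).val : ℤ)) : ZMod v) =
            ((1 + ((Nat.gcd q v : ℕ) : ℤ) * e : ℤ) : ZMod v) := by
          congr 1
          linarith
        push_cast at h5
        rwa [ZMod.natCast_zmod_val] at h5
      rw [h4, add_mul, one_mul, mul_right_comm, h1, zero_mul, add_zero]
    rw [h2]
  · have h1 : F (y + x0) = 0 := by
      by_contra h
      have h2 := hq _ _ h hx0
      rw [mul_add] at h2
      exact hy (by simpa using h2)
    have h3 : F (u * y + x0) = 0 := by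
      by_contra h
      have h2 := hq _ _ h hx0
      rw [mul_add, mul_left_comm] at h2
      exact hy (by simpa using h2)
    rw [h1, h3]

/-- A power `t ^ i`, `1 ≤ i ≤ 8 ^ (m ^ 2)`, is a multiplier. -/
theorem small_pow (hD : IsDS D l) {m n1 : ℕ} (hm : 0 < m) (hn1 : 0 < n1)
    (hn : (D.card : ℤ) - l = m * n1) (hcop : Nat.Coprime (m * n1) v) (t : (ZMod v)ˣ)
    (ht : ∀ p : ℕ, p.Prime → p ∣ n1 → ∃ j : ℕ, (t : ZMod v) = (p : ZMod v) ^ j) :
    ∃ i : ℕ, 1 ≤ i ∧ i ≤ 8 ^ (m ^ 2) ∧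
      ∃ s : ZMod v, D.image (fun x => ((t ^ i : (ZMod v)ˣ) : ZMod v) * x) =
        D.image (fun x => x + s) := by
  obtain ⟨w, hwv, hw8, hw⟩ := small_div hD hm hn1 hn hcop t ht
  have hwpos : 0 < w := Nat.pos_of_dvd_of_pos hwv (NeZero.pos v)
  refine ⟨Nat.totient w, Nat.totient_pos.2 hwpos, (Nat.totient_le w).trans hw8, hw _ ?_⟩
  have h1 : Nat.Coprime (t : ZMod v).val w :=
    Nat.Coprime.coprime_dvd_right hwv (ZMod.val_coe_unit_coprime t)
  have h2 := Nat.ModEq.pow_totient h1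
  have h3 : ((t ^ Nat.totient w : (ZMod v)ˣ) : ZMod v).val ≡ (t : ZMod v).val ^ Nat.totient w
      [MOD v] := by
    rw [← ZMod.natCast_eq_natCast_iff]
    push_cast
    rw [ZMod.natCast_zmod_val, ZMod.natCast_zmod_val]
  exact (h3.of_dvd hwv).trans h2

end Pool.Agent.H10.MU
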